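import Mathlib

/-!
# Finite dimensional algebras: matrix units modulo the radical
-/

set_option autoImplicit false
set_option linter.unusedSectionVars false
set_option linter.unusedVariables false

namespace Pool.Agent.N609.Mon

open Finset

/-- Wedderburn, with a nilpotent kernel -/
theorem exists_phi (A : Type) [Ring A] [Algebra ℂ A] [FiniteDimensional ℂ A] :
    ∃ (n : ℕ) (d : Fin n → ℕ) (φ : A →ₐ[ℂ] (∀ i, Matrix (Fin (d i)) (Fin (d i)) ℂ)) (N : ℕ),
      (∀ i, 0 < d i) ∧ Function.Surjective φ ∧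
      (∀ l : List A, l.length = N → (∀ a ∈ l, φ a = 0) → l.prod = 0) := by
  have hart := IsArtinianRing.of_finite ℂ A
  have hsp : IsSemiprimaryRing A := inferInstance
  obtain ⟨n, d, hd, ⟨ψ⟩⟩ := IsSemisimpleRing.exists_algEquiv_pi_matrix_of_isAlgClosed ℂ
    (A ⧸ Ring.jacobson A)
  obtain ⟨N, hN⟩ := hsp.isNilpotent
  refine ⟨n, d, ψ.toAlgHom.comp (Ideal.Quotient.mkₐ ℂ (Ring.jacobson A)), N,
    fun i => Nat.pos_of_ne_zero (hd i).out, ?_, ?_⟩
  · intro y
    obtain ⟨z, hz⟩ := ψ.surjective y
    obtain ⟨a, ha⟩ := Ideal.Quotient.mk_surjective z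
    refine ⟨a, ?_⟩
    change ψ (Ideal.Quotient.mk _ a) = y
    rw [ha, hz]
  · intro l hl h
    have key : ∀ l : List A, (∀ a ∈ l, a ∈ Ring.jacobson A) →
        l.prod ∈ (Ring.jacobson A) ^ l.length := by
      intro l
      induction l with
      | nil =>
        intro _
        rw [List.length_nil, Submodule.pow_zero, Ideal.one_eq_top]
        exact Submodule.mem_top
      | cons a l ih =>
        intro h
        rw [List.prod_cons, List.length_cons, Ideal.IsTwoSided.pow_succ]
        exact Ideal.mul_mem_mul (h a (by simp)) (ih fun b hb => h b (by simp [hb]))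
    have h1 := key l (fun a ha => by
      have h2 := h a ha
      have h3 : ψ (Ideal.Quotient.mk (Ring.jacobson A) a) = 0 := h2
      rw [map_eq_zero_iff ψ ψ.injective] at h3
      exact Ideal.Quotient.eq_zero_iff_mem.1 h3)
    rw [hl, hN] at h1
    simpa using h1

section

variable {A : Type} [Ring A] [Algebra ℂ A] {n : ℕ} {d : Fin n → ℕ}

/-- the diagonal matrix units -/
noncomputable def dU {n : ℕ} {d : Fin n → ℕ} (j : Σ i, Fin (d i)) :
    ∀ i, Matrix (Fin (d i)) (Fin (d i)) ℂ :=
  Pi.single j.1 (Matrix.single j.2 j.2 1)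

theorem dU_complete : CompleteOrthogonalIdempotents
    (dU : (Σ i, Fin (d i)) → ∀ i, Matrix (Fin (d i)) (Fin (d i)) ℂ) := by
  refine ⟨⟨?_, ?_⟩, ?_⟩
  · intro j
    change dU j * dU j = dU j
    unfold dU
    rw [← Pi.single_mul, Matrix.single_mul_single_same, mul_one]
  · rintro ⟨i, a⟩ ⟨i', a'⟩ h
    unfold dU
    by_cases hi : i = i'
    · subst hi
      rw [← Pi.single_mul]
      have ha : a ≠ a' := by
        rintro rfl
        exact h rfl
      rw [Matrix.single_mul_single_of_ne (h := ha)]
      simp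
    · funext k
      rw [Pi.mul_apply]
      by_cases hk : k = i
      · subst hk
        simp [Pi.single_eq_of_ne hi]
      · simp [Pi.single_eq_of_ne hk]
  · funext k
    rw [Finset.sum_apply, Fintype.sum_sigma, Finset.sum_eq_single k]
    · unfold dU
      ext x y
      rw [Matrix.sum_apply, Pi.one_apply, Matrix.one_apply]
      simp only [Pi.single_eq_same, Matrix.single_apply]
      by_cases hxy : x = y
      · subst hxy
        simp
      · rw [if_neg hxy]
        refine sum_eq_zero fun c _ => ?_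
        rw [if_neg]
        rintro ⟨rfl, rfl⟩
        exact hxy rfl
    · intro i _ hik
      refine sum_eq_zero fun c _ => ?_
      unfold dU
      simp [Pi.single_eq_of_ne hik.symm]
    · simp

theorem exists_idem (φ : A →ₐ[ℂ] (∀ i, Matrix (Fin (d i)) (Fin (d i)) ℂ))
    (hφ : Function.Surjective φ) {N : ℕ}
    (hN : ∀ l : List A, l.length = N → (∀ a ∈ l, φ a = 0) → l.prod = 0) :
    ∃ e : (Σ i, Fin (d i)) → A, CompleteOrthogonalIdempotents e ∧ ∀ j, φ (e j) = dU j := by
  obtain ⟨e, he, h⟩ := CompleteOrthogonalIdempotents.lift_of_isNilpotent_ker (φ : A →+* _)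
    (fun x hx => by
      refine ⟨N, ?_⟩
      have := hN (List.replicate N x) (by simp) (fun a ha => by
        rw [List.eq_of_mem_replicate ha]
        exact hx)
      simpa using this) (dU_complete (d := d)) (fun j => RingHom.mem_range.2 (hφ (dU j)))
  exact ⟨e, he, fun j => congrFun h j⟩

variable {φ : A →ₐ[ℂ] (∀ i, Matrix (Fin (d i)) (Fin (d i)) ℂ)} {N : ℕ}
  {e : (Σ i, Fin (d i)) → A} {B : Type} [Ring B] [Nontrivial B] {q : A →+* B}
  {j0 : Σ i, Fin (d i)}

theorem q_one (he : CompleteOrthogonalIdempotents e) (hq : ∀ j, j ≠ j0 → q (e j) = 0) :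
    q (e j0) = 1 := by
  have h := congrArg q he.complete
  rw [map_sum, map_one, Finset.sum_eq_single j0 (fun j _ hj => hq j hj) (by simp)] at h
  exact h

/-- only one idempotent survives: it comes from a block of size one -/
theorem block_one (hφ : Function.Surjective φ)
    (hN : ∀ l : List A, l.length = N → (∀ a ∈ l, φ a = 0) → l.prod = 0)
    (he : CompleteOrthogonalIdempotents e) (hφe : ∀ j, φ (e j) = dU j)
    (hq : ∀ j, j ≠ j0 → q (e j) = 0) : ∀ a : Fin (d j0.1), a = j0.2 := by
  obtain ⟨i0, a0⟩ := j0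
  intro a1
  by_contra hne
  change a1 ≠ a0 at hne
  obtain ⟨u, hu⟩ := hφ (Pi.single i0 (Matrix.single a0 a1 1))
  obtain ⟨v, hv⟩ := hφ (Pi.single i0 (Matrix.single a1 a0 1))
  have h1 : φ (e ⟨i0, a0⟩ - u * e ⟨i0, a1⟩ * v) = 0 := by
    rw [map_sub, map_mul, map_mul, hu, hv, hφe, hφe]
    unfold dU
    rw [← Pi.single_mul, ← Pi.single_mul, Matrix.single_mul_single_same,
      Matrix.single_mul_single_same, mul_one, mul_one, sub_self]
  have h2 := hN (List.replicate N (e ⟨i0, a0⟩ - u * e ⟨i0, a1⟩ * v)) (by simp)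
    (fun a ha => by rw [List.eq_of_mem_replicate ha]; exact h1)
  rw [List.prod_replicate] at h2
  have h3 := congrArg q h2
  rw [map_pow, map_sub, map_mul, map_mul, q_one he hq,
    hq ⟨i0, a1⟩ (by
      intro h
      rw [Sigma.mk.injEq] at h
      exact hne (eq_of_heq h.2)), mul_zero, zero_mul, sub_zero, one_pow, map_zero] at h3
  exact one_ne_zero h3

/-- products of elements outside the surviving character vanish -/
theorem prod_zero (hN : ∀ l : List A, l.length = N → (∀ a ∈ l, φ a = 0) → l.prod = 0)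
    (he : CompleteOrthogonalIdempotents e) (hφe : ∀ j, φ (e j) = dU j)
    (hq : ∀ j, j ≠ j0 → q (e j) = 0) (hd : ∀ a : Fin (d j0.1), a = j0.2)
    (l : List A) (hl : l.length = N) (h : ∀ a ∈ l, φ a j0.1 j0.2 j0.2 = 0) :
    (l.map q).prod = 0 := by
  have h1 := hN (l.map (fun a => a * e j0)) (by simp [hl]) (by
    intro b hb
    rw [List.mem_map] at hb
    obtain ⟨a, ha, rfl⟩ := hb
    rw [map_mul, hφe]
    unfold dU
    funext i
    rw [Pi.mul_apply]
    by_cases hi : i = j0.1
    · subst hi
      rw [Pi.single_eq_same]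
      ext x y
      rw [hd x, hd y, Matrix.mul_apply]
      have e1 : ∀ c : Fin (d j0.1), φ a j0.1 j0.2 c * Matrix.single j0.2 j0.2 (1 : ℂ) c j0.2 =
          0 := by
        intro c
        rw [hd c, h a ha, zero_mul]
      simp only [e1, sum_const_zero]
      rfl
    · rw [Pi.single_eq_of_ne hi, mul_zero]
      rfl)
  have h2 : (l.map (fun a => a * e j0)).map q = l.map q := by
    rw [List.map_map]
    refine List.map_congr_left fun a _ => ?_
    rw [Function.comp_apply, map_mul, q_one he hq, mul_one]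
  rw [← h2, ← map_list_prod, h1, map_zero]

/-- unipotent elements of finite order are trivial -/
theorem unip {x : B} {N m : ℕ} (hm : 0 < m) (hu : IsUnit ((m : ℕ) : B)) (h1 : (x - 1) ^ N = 0)
    {k : ℕ} (h2 : x ^ (k + m) = x ^ k) : x = 1 := by
  have hnil : IsNilpotent (x - 1) := ⟨N, h1⟩
  have hx : IsUnit x := by
    have := hnil.isUnit_one_add
    rwa [add_sub_cancel] at this
  have h3 : x ^ m = 1 := by
    have h4 : x ^ k * (x ^ m - 1) = 0 := by
      rw [mul_sub, ← pow_add, h2, mul_one, sub_self]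
    have h5 := (hx.pow k).mul_right_eq_zero.1 h4
    exact sub_eq_zero.1 h5
  have h6 : IsUnit (∑ i ∈ Finset.range m, x ^ i) := by
    have e1 : ∑ i ∈ Finset.range m, x ^ i =
        (m : B) + (x - 1) * ∑ i ∈ Finset.range m, ∑ l ∈ Finset.range i, x ^ l := by
      rw [mul_sum]
      simp only [mul_geom_sum]
      rw [sum_sub_distrib]
      simp
    rw [e1]
    have hc : Commute (x - 1) (∑ i ∈ Finset.range m, ∑ l ∈ Finset.range i, x ^ l) := by
      refine Commute.sum_right _ _ _ fun i _ => Commute.sum_right _ _ _ fun l _ => ?_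
      exact ((Commute.refl x).sub_left (Commute.one_left x)).pow_right l
    refine IsNilpotent.isUnit_add_left_of_commute (hc.isNilpotent_mul_right hnil) hu ?_
    exact (Nat.cast_commute m _).symm
  have h7 : (x - 1) * ∑ i ∈ Finset.range m, x ^ i = 0 := by
    rw [mul_geom_sum, h3, sub_self]
  have h8 := h6.mul_left_eq_zero.1 h7
  exact sub_eq_zero.1 h8

end

end Pool.Agent.N609.Mon
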