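import Pool.Agent.N609.Mon.Conv

/-!
# Unbounded monoids generated by idempotents contain all Boolean matrices
-/

set_option autoImplicit false
set_option linter.unusedSectionVars false
set_option linter.unusedVariables false

namespace Pool.Agent.N609.Mon

open Finset

/-- elements `1`, `l x`, `r y`, `e`, `0` -/
inductive BX (X Y : Type) (G : X → Y → Bool) : Type
  | one : BX X Y G
  | l : X → BX X Y G
  | r : Y → BX X Y G
  | e : BX X Y G
  | z : BX X Y G

namespace BX

variable {X Y : Type} {G : X → Y → Bool}

/-- the product: `l x * r y = e` if `G x y`, and `0` otherwise -/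
def mul : BX X Y G → BX X Y G → BX X Y G
  | one, t => t
  | s, one => s
  | l _, l x => l x
  | l x, r y => if G x y then e else z
  | l _, e => e
  | l _, z => z
  | r _, l _ => z
  | r y, r _ => r y
  | r _, e => z
  | r _, z => z
  | e, l _ => z
  | e, r _ => e
  | e, e => z
  | e, z => z
  | z, _ => z

instance : Monoid (BX X Y G) where
  mul := mul
  one := one
  mul_assoc := by
    intro s t u
    change mul (mul s t) u = mul s (mul t u)
    rcases s with _ | x | y | _ | _ <;> rcases t with _ | x' | y' | _ | _ <;>
      rcases u with _ | x'' | y'' | _ | _ <;> simp only [mul] <;>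
      (try cases G x y') <;> (try cases G x' y'') <;> rfl
  one_mul := by
    intro s
    rfl
  mul_one := by
    rintro (_ | x | y | _ | _) <;> rfl

theorem one_eq : (one : BX X Y G) = 1 := rfl
theorem l_mul_r (x : X) (y : Y) : (l x * r y : BX X Y G) = if G x y then e else z := rfl

/-- `BX` as a sum type -/
def toOpt : BX X Y G → Option (Option (Option (X ⊕ Y)))
  | one => none
  | e => some none
  | z => some (some none)
  | l x => some (some (some (Sum.inl x)))
  | r y => some (some (some (Sum.inr y)))

/-- the inverse -/
def ofOpt : Option (Option (Option (X ⊕ Y))) → BX X Y G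
  | none => one
  | some none => e
  | some (some none) => z
  | some (some (some (Sum.inl x))) => l x
  | some (some (some (Sum.inr y))) => r y

/-- the equivalence -/
def equivOpt : BX X Y G ≃ Option (Option (Option (X ⊕ Y))) where
  toFun := toOpt
  invFun := ofOpt
  left_inv := by rintro (_ | x | y | _ | _) <;> rfl
  right_inv := by rintro (_ | _ | _ | x | y) <;> rfl

instance [Fintype X] [Fintype Y] : Fintype (BX X Y G) := Fintype.ofEquiv _ equivOpt.symm

theorem card_BX [Fintype X] [Fintype Y] :
    Fintype.card (BX X Y G) = Fintype.card X + Fintype.card Y + 3 := by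
  rw [Fintype.card_congr (equivOpt (X := X) (Y := Y) (G := G))]
  simp

theorem closure_BX (h : ∃ x y, G x y = true) :
    Submonoid.closure {s : BX X Y G | s * s = s} = ⊤ := by
  rw [eq_top_iff]
  intro s _
  have hid : ∀ s : BX X Y G, s * s = s → s ∈ Submonoid.closure {s : BX X Y G | s * s = s} :=
    fun s hs => Submonoid.subset_closure hs
  rcases s with _ | x | y | _ | _
  · exact Submonoid.one_mem _
  · exact hid _ rfl
  · exact hid _ rfl
  · obtain ⟨x, y, hxy⟩ := h
    have h1 : (e : BX X Y G) = l x * r y := by rw [l_mul_r, if_pos hxy]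
    rw [h1]
    exact Submonoid.mul_mem _ (hid _ rfl) (hid _ rfl)
  · exact hid _ rfl

open Classical in
theorem rank_BX [Fintype X] [Fintype Y] [DecidableEq X] [DecidableEq Y] :
    (Matrix.of (fun s t : BX X Y G => if decide (s * t = e) = true then (1 : ℝ) else 0)).rank ≤
      (Matrix.of (fun x y => if G x y then (1 : ℝ) else 0)).rank + 2 := by
  let U : Matrix (BX X Y G) X ℝ := Matrix.of fun s x => if s = l x then 1 else 0
  let V : Matrix Y (BX X Y G) ℝ := Matrix.of fun y t => if t = r y then 1 else 0
  let a1 : BX X Y G → ℝ := fun s => if s = one ∨ ∃ x, s = l x then 1 else 0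
  let b1 : BX X Y G → ℝ := fun t => if t = e then 1 else 0
  let b2 : BX X Y G → ℝ := fun t => if t = one ∨ ∃ y, t = r y then 1 else 0
  have hF : Matrix.of (fun s t : BX X Y G => if decide (s * t = e) = true then (1 : ℝ) else 0) =
      U * (Matrix.of (fun x y => if G x y then (1 : ℝ) else 0)) * V +
        (Matrix.vecMulVec a1 b1 + Matrix.vecMulVec b1 b2) := by
    ext s t
    rw [Matrix.add_apply, Matrix.add_apply, Matrix.vecMulVec_apply, Matrix.vecMulVec_apply,
      Matrix.mul_apply]
    simp only [Matrix.mul_apply, Matrix.of_apply, U, V, a1, b1, b2, decide_eq_true_iff]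
    have hm : s * t = mul s t := rfl
    rw [hm]
    rcases s with _ | x | y | _ | _ <;> rcases t with _ | x' | y' | _ | _ <;>
      simp [mul]
    rw [Finset.sum_eq_single x]
    · simp
    · intro b _ hb
      simp [Ne.symm hb]
    · simp
  rw [hF]
  have h1 := rank_add_le (U * (Matrix.of (fun x y => if G x y then (1 : ℝ) else 0)) * V)
    (Matrix.vecMulVec a1 b1 + Matrix.vecMulVec b1 b2)
  have h2 := rank_add_le (Matrix.vecMulVec a1 b1) (Matrix.vecMulVec b1 b2)
  have h3 := Matrix.rank_vecMulVec_le a1 b1
  have h4 := Matrix.rank_vecMulVec_le b1 b2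
  have h5 := rank_ABC_le U (Matrix.of (fun x y => if G x y then (1 : ℝ) else 0)) V
  omega

end BX

/-- every Boolean matrix is a submatrix of a function of the product in a monoid which is
generated by idempotents, of almost the same rank -/
theorem exists_band {X Y : Type} [Fintype X] [Fintype Y] (G : X → Y → Bool) :
    ∃ (S : Type) (_ : Fintype S) (_ : Monoid S) (f : S → Bool) (α : X → S) (β : Y → S),
      Submonoid.closure {s : S | s * s = s} = ⊤ ∧ (∀ x y, f (α x * β y) = G x y) ∧
      (Matrix.of (fun s t : S => if f (s * t) then (1 : ℝ) else 0)).rank ≤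
        (Matrix.of (fun x y => if G x y then (1 : ℝ) else 0)).rank + 2 := by
  classical
  by_cases h : ∃ x y, G x y = true
  · refine ⟨BX X Y G, inferInstance, inferInstance, fun s => decide (s = BX.e), BX.l, BX.r,
      BX.closure_BX h, ?_, BX.rank_BX⟩
    intro x y
    rw [BX.l_mul_r]
    by_cases hG : G x y = true
    · simp [hG]
    · simp [hG]
  · push Not at h
    refine ⟨PUnit, inferInstance, inferInstance, fun _ => false, fun _ => PUnit.unit,
      fun _ => PUnit.unit, ?_, ?_, ?_⟩
    · exact Subsingleton.elim _ _
    · intro x y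
      have := h x y
      simp only [Bool.not_eq_true] at this
      exact this.symm
    · have : (Matrix.of (fun s t : PUnit => if false = true then (1 : ℝ) else 0)) = 0 := by
        ext s t
        simp
      rw [this, Matrix.rank_zero]
      exact Nat.zero_le _

end Pool.Agent.N609.Mon
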