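import Mathlib

/-!
# Möbius inversion on the sets of variables
-/

set_option autoImplicit false
set_option linter.unusedSectionVars false
set_option linter.unusedVariables false

namespace Pool.Agent.N609.Mon

open Finset

section

variable {V : Type} [DecidableEq V] {M : Type} [AddCommGroup M] [Module ℂ M]

/-- the Möbius transform -/
noncomputable def mob (φ : Finset V → M) (S : Finset V) : M :=
  ∑ T ∈ S.powerset, ((-1 : ℂ) ^ (S \ T).card) • φ T

theorem mob_insert (φ : Finset V → M) {v : V} {S : Finset V} (hv : v ∉ S) :
    mob φ (insert v S) = mob (fun T => φ (insert v T)) S - mob φ S := by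
  unfold mob
  rw [sum_powerset_insert hv, add_comm, sub_eq_add_neg, ← sum_neg_distrib]
  congr 1
  · refine sum_congr rfl fun T hT => ?_
    rw [mem_powerset] at hT
    have : insert v S \ insert v T = S \ T := by
      ext x
      simp only [mem_sdiff, mem_insert, not_or]
      constructor
      · rintro ⟨h1 | h1, h2, h3⟩
        · exact absurd h1 h2
        · exact ⟨h1, h3⟩
      · rintro ⟨h1, h2⟩
        exact ⟨Or.inr h1, fun h => hv (h ▸ h1), h2⟩
    rw [this]
  · refine sum_congr rfl fun T hT => ?_
    rw [mem_powerset] at hT
    have hvT : v ∉ T := fun h => hv (hT h)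
    have : insert v S \ T = insert v (S \ T) := by
      rw [insert_sdiff_of_notMem _ hvT]
    rw [this, card_insert_of_notMem (by
      rw [mem_sdiff]
      exact fun h => hv h.1), pow_succ, mul_neg, mul_one, neg_smul]

theorem mob_empty (φ : Finset V → M) : mob φ ∅ = φ ∅ := by
  unfold mob
  simp

theorem mob_inv (U : Finset V) : ∀ φ : Finset V → M, ∑ S ∈ U.powerset, mob φ S = φ U := by
  induction U using Finset.induction_on with
  | empty =>
    intro φ
    simp [mob_empty]
  | insert v U hv ih =>
    intro φ
    rw [sum_powerset_insert hv, ← sum_add_distrib]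
    have h1 : ∀ S ∈ U.powerset, mob φ S + mob φ (insert v S) = mob (fun T => φ (insert v T)) S := by
      intro S hS
      rw [mem_powerset] at hS
      rw [mob_insert φ (fun h => hv (hS h)), add_sub_cancel]
    rw [sum_congr rfl h1, ih]

theorem mob_congr {φ ψ : Finset V → M} {S : Finset V} (h : ∀ T ⊆ S, φ T = ψ T) :
    mob φ S = mob ψ S := by
  unfold mob
  refine sum_congr rfl fun T hT => ?_
  rw [h T (mem_powerset.1 hT)]

theorem mob_toggle (φ : Finset V → M) {v : V} {S : Finset V} (hv : v ∈ S)
    (h : ∀ T ⊆ S.erase v, φ (insert v T) = φ T) : mob φ S = 0 := by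
  have h1 := mob_insert φ (notMem_erase v S)
  rw [insert_erase hv] at h1
  rw [h1, mob_congr h, sub_self]

theorem mob_zero {φ : Finset V → M} {S : Finset V} (h : ∀ T ⊆ S, φ T = 0) :
    mob φ S = 0 := by
  unfold mob
  refine sum_eq_zero fun T hT => ?_
  rw [h T (mem_powerset.1 hT), smul_zero]

theorem mob_map {M' : Type} [AddCommGroup M'] [Module ℂ M'] (L : M →ₗ[ℂ] M')
    (φ : Finset V → M) (S : Finset V) : L (mob φ S) = mob (fun T => L (φ T)) S := by
  unfold mob
  rw [map_sum]
  simp only [map_smul]

/-- the transform of a monomial -/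
theorem mob_mono (Z S : Finset V) :
    mob (fun T => if Z ⊆ T then (1 : ℂ) else 0) S = if S = Z then 1 else 0 := by
  by_cases h1 : S ⊆ Z
  · by_cases h2 : S = Z
    · subst h2
      rw [if_pos rfl]
      unfold mob
      rw [sum_eq_single S]
      · simp
      · intro T hT hne
        rw [mem_powerset] at hT
        have h5 : ¬ S ⊆ T := fun h => hne (subset_antisymm hT h)
        simp only [if_neg h5, smul_zero]
      · intro h
        exact absurd (mem_powerset_self S) h
    · rw [if_neg h2]
      refine mob_zero fun T hT => ?_
      have h5 : ¬ Z ⊆ T := fun h => h2 (subset_antisymm h1 (h.trans hT))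
      simp only [if_neg h5]
  · have h5 : S ≠ Z := by
      rintro rfl
      exact h1 subset_rfl
    rw [if_neg h5]
    rw [not_subset] at h1
    obtain ⟨v, hv, hvZ⟩ := h1
    refine mob_toggle _ hv fun T _ => ?_
    have : Z ⊆ insert v T ↔ Z ⊆ T := by
      constructor
      · intro h x hx
        rcases mem_insert.1 (h hx) with rfl | h1
        · exact absurd hx hvZ
        · exact h1
      · exact fun h => h.trans (subset_insert _ _)
    simp only [this]

end

end Pool.Agent.N609.Mon
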