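import Pool.Agent.N609.Mon.Dat
import Pool.Agent.N609.Mon.Mob

/-!
# Boolean coding of the elements of a tame monoid
-/

set_option autoImplicit false
set_option linter.unusedSectionVars false
set_option linter.unusedVariables false

namespace Pool.Agent.N609.Mon

open Finset

section

variable {S : Type} [Fintype S] [Monoid S] (D : Dat S)

open Classical in
/-- the characters with value one -/
noncomputable def ze (s : S) : Finset D.J := D.I.filter (fun j => D.χ j (of s) = 1)

theorem mem_ze {s : S} {j : D.J} : j ∈ ze D s ↔ j ∈ D.I ∧ D.χ j (of s) = 1 := by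
  classical
  simp [ze]

theorem chi_mul_one {j : D.J} (hj : j ∈ D.I) (s t : S) :
    D.χ j (of (s * t)) = 1 ↔ D.χ j (of s) = 1 ∧ D.χ j (of t) = 1 := by
  have h : D.χ j (of (s * t)) = D.χ j (of s) * D.χ j (of t) := by
    rw [← D.χmul j hj]
    congr 1
    exact map_mul _ _ _
  rw [h]
  rcases D.χ01 j hj s with h1 | h1 <;> rcases D.χ01 j hj t with h2 | h2 <;> rw [h1, h2] <;> simp

open Classical in
theorem ze_mul (s t : S) : ze D (s * t) = ze D s ∩ ze D t := by
  ext j
  rw [mem_inter, mem_ze, mem_ze, mem_ze]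
  constructor
  · rintro ⟨h1, h2⟩
    rw [chi_mul_one D h1] at h2
    exact ⟨⟨h1, h2.1⟩, ⟨h1, h2.2⟩⟩
  · rintro ⟨⟨h1, h2⟩, ⟨_, h3⟩⟩
    exact ⟨h1, (chi_mul_one D h1 s t).2 ⟨h2, h3⟩⟩

theorem mem_ze_list (l : List S) {j : D.J} :
    j ∈ ze D l.prod ↔ j ∈ D.I ∧ ∀ s ∈ l, D.χ j (of s) = 1 := by
  classical
  induction l with
  | nil =>
    rw [mem_ze]
    refine and_congr_right fun hj => ?_
    have : D.χ j (of ([] : List S).prod) = 1 := by
      rw [List.prod_nil]
      have h1 : (of (1 : S)) = 1 := map_one _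
      rw [h1]
      exact D.χone j hj
    exact ⟨fun _ s hs => absurd hs (by simp), fun _ => this⟩
  | cons s l ih =>
    rw [List.prod_cons, ze_mul, mem_inter, ih, mem_ze]
    constructor
    · rintro ⟨⟨h1, h2⟩, ⟨_, h3⟩⟩
      refine ⟨h1, fun t ht => ?_⟩
      rcases List.mem_cons.1 ht with rfl | ht
      · exact h2
      · exact h3 t ht
    · rintro ⟨h1, h2⟩
      exact ⟨⟨h1, h2 s (by simp)⟩, ⟨h1, fun t ht => h2 t (by simp [ht])⟩⟩

variable {k : ℕ}

open Classical in
/-- the meet coded by a set of variables -/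
noncomputable def cc (U : Finset (S ⊕ Fin k)) : Finset D.J :=
  D.I.filter (fun j => ∀ s : S, Sum.inl s ∉ U → D.χ j (of s) = 1)

theorem mem_cc {U : Finset (S ⊕ Fin k)} {j : D.J} :
    j ∈ cc D U ↔ j ∈ D.I ∧ ∀ s : S, Sum.inl s ∉ U → D.χ j (of s) = 1 := by
  classical
  simp [cc]

theorem exists_ze (U : Finset (S ⊕ Fin k)) : ∃ z, ze D z = cc D U := by
  classical
  refine ⟨(univ.filter (fun s : S => Sum.inl s ∉ U)).toList.prod, ?_⟩
  ext j
  rw [mem_ze_list, mem_cc]
  simp

open Classical in
/-- a representative -/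
noncomputable def rep (p : Finset D.J) : S := if h : ∃ z, ze D z = p then h.choose else 1

theorem ze_rep {p : Finset D.J} (h : ∃ z, ze D z = p) : ze D (rep D p) = p := by
  classical
  unfold rep
  rw [dif_pos h]
  exact h.choose_spec

open Classical in
/-- the bits -/
noncomputable def bits (U : Finset (S ⊕ Fin k)) : Finset (Fin k) :=
  univ.filter (fun b => Sum.inr b ∈ U)

theorem mem_bits {U : Finset (S ⊕ Fin k)} {b : Fin k} : b ∈ bits U ↔ Sum.inr b ∈ U := by
  simp [bits]

variable (cd : S → Finset (Fin k))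

open Classical in
/-- the decoded element -/
noncomputable def dl (U : Finset (S ⊕ Fin k)) : S :=
  if ze D (Function.invFun cd (bits U)) = cc D U then Function.invFun cd (bits U)
  else rep D (cc D U)

theorem ze_dl (U : Finset (S ⊕ Fin k)) : ze D (dl D cd U) = cc D U := by
  classical
  unfold dl
  split_ifs with h
  · exact h
  · exact ze_rep D (exists_ze D U)

open Classical in
/-- the monomial of a character -/
noncomputable def Zs (k : ℕ) (j : D.J) : Finset (S ⊕ Fin k) :=
  univ.filter (fun v => ∃ s : S, v = Sum.inl s ∧ D.χ j (of s) ≠ 1)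

theorem inl_mem_Zs {j : D.J} {s : S} : Sum.inl s ∈ Zs D k j ↔ D.χ j (of s) ≠ 1 := by
  simp [Zs]

theorem inr_mem_Zs {j : D.J} {b : Fin k} : ¬ Sum.inr b ∈ Zs D k j := by
  simp [Zs]

open Classical in
theorem chi_dl {j : D.J} (hj : j ∈ D.I) (U : Finset (S ⊕ Fin k)) :
    D.χ j (of (dl D cd U)) = if Zs D k j ⊆ U then 1 else 0 := by
  have h1 : Zs D k j ⊆ U ↔ D.χ j (of (dl D cd U)) = 1 := by
    have h2 : D.χ j (of (dl D cd U)) = 1 ↔ j ∈ cc D U := by
      rw [← ze_dl D cd U, mem_ze]
      exact ⟨fun h => ⟨hj, h⟩, fun h => h.2⟩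
    rw [h2, mem_cc]
    constructor
    · intro h
      refine ⟨hj, fun s hs => ?_⟩
      by_contra hc
      exact hs (h (inl_mem_Zs D |>.2 hc))
    · rintro ⟨_, h⟩ v hv
      rcases v with s | b
      · by_contra hc
        exact (inl_mem_Zs D).1 hv (h s hc)
      · exact absurd hv (inr_mem_Zs D)
  split_ifs with h
  · exact h1.1 h
  · exact (D.χ01 j hj _).resolve_right (fun h2 => h (h1.2 h2))

open Classical in
/-- coefficients in the algebra -/
noncomputable def CC (U : Finset (S ⊕ Fin k)) : MonoidAlgebra ℂ S :=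
  mob (fun T => of (dl D cd T)) U

theorem sum_CC (U : Finset (S ⊕ Fin k)) :
    ∑ T ∈ U.powerset, CC D cd T = of (dl D cd U) := by
  classical
  exact mob_inv U _

open Classical in
theorem chi_CC {j : D.J} (hj : j ∈ D.I) (U : Finset (S ⊕ Fin k)) :
    D.χ j (CC D cd U) = if U = Zs D k j then 1 else 0 := by
  unfold CC
  rw [mob_map]
  simp only [chi_dl D cd hj]
  exact mob_mono _ _

open Classical in
/-- the variables not above an element -/
noncomputable def nu (k : ℕ) (s : S) : Finset (S ⊕ Fin k) :=
  univ.filter (fun v => ∃ t : S, v = Sum.inl t ∧ ¬ ze D s ⊆ ze D t)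

theorem inl_mem_nu {s t : S} : Sum.inl t ∈ nu D k s ↔ ¬ ze D s ⊆ ze D t := by
  simp [nu]

theorem inr_mem_nu {s : S} {b : Fin k} : ¬ Sum.inr b ∈ nu D k s := by
  simp [nu]

open Classical in
/-- the possible monomials -/
noncomputable def MM (k : ℕ) : Finset (Finset (S ⊕ Fin k)) :=
  (univ : Finset (S × Finset (Fin k))).image (fun p => nu D k p.1 ∪ p.2.image Sum.inr)

theorem card_MM : (MM D k).card ≤ Fintype.card S * 2 ^ k := by
  classical
  unfold MM
  refine card_image_le.trans ?_
  rw [card_univ, Fintype.card_prod, Fintype.card_finset, Fintype.card_fin]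

theorem cc_mono {U U' : Finset (S ⊕ Fin k)} (h : U ⊆ U') : cc D U ⊆ cc D U' := by
  intro j hj
  rw [mem_cc] at hj ⊢
  exact ⟨hj.1, fun s hs => hj.2 s (fun h1 => hs (h h1))⟩

open Classical in
theorem supp_CC {U : Finset (S ⊕ Fin k)} (hU : CC D cd U ≠ 0) :
    U ∈ MM D k := by
  obtain ⟨z, hz⟩ := exists_ze D U
  unfold MM
  rw [mem_image]
  refine ⟨(z, bits U), mem_univ _, ?_⟩
  ext v
  rw [mem_union]
  rcases v with t | b
  · rw [inl_mem_nu, hz]
    constructor
    · rintro (h | h)
      · by_contra hc
        apply h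
        intro j hj
        rw [mem_cc] at hj
        rw [mem_ze]
        exact ⟨hj.1, hj.2 t hc⟩
      · simp at h
    · intro ht
      left
      intro hsub
      apply hU
      unfold CC
      refine mob_toggle _ ht fun T hT => ?_
      have h1 : cc D (insert (Sum.inl t) T) = cc D T := by
        ext j
        constructor
        · intro hj
          have h2 : insert (Sum.inl t) T ⊆ U := by
            rw [insert_subset_iff]
            exact ⟨ht, hT.trans (erase_subset _ _)⟩
          have h3 := hsub (cc_mono D h2 hj)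
          rw [mem_cc] at hj ⊢
          refine ⟨hj.1, fun s hs => ?_⟩
          by_cases hst : s = t
          · rw [hst]
            exact (mem_ze D).1 h3 |>.2
          · refine hj.2 s (fun h4 => ?_)
            rcases mem_insert.1 h4 with h5 | h5
            · exact hst (Sum.inl_injective h5)
            · exact hs h5
        · exact fun hj => cc_mono D (subset_insert _ _) hj
      have h2 : bits (insert (Sum.inl t) T) = bits T := by
        ext b
        rw [mem_bits, mem_bits, mem_insert]
        simp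
      unfold dl
      rw [h1, h2]
  · constructor
    · rintro (h | h)
      · exact absurd h (inr_mem_nu D)
      · rw [mem_image] at h
        obtain ⟨b', hb', hb⟩ := h
        rw [mem_bits] at hb'
        rw [← hb]
        exact hb'
    · intro h
      right
      rw [mem_image]
      exact ⟨b, mem_bits.2 h, rfl⟩

open Classical in
/-- the inner functions -/
noncomputable def ph (v : S ⊕ Fin k) (x y : S) : Bool :=
  match v with
  | Sum.inl s => decide (¬ ze D x ⊆ ze D s) && decide (¬ ze D y ⊆ ze D s)
  | Sum.inr b => decide (b ∈ cd (x * y))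

open Classical in
theorem dl_ph (hcd : Function.Injective cd) (x y : S) :
    dl D cd (univ.filter (fun v => ph D cd v x y = true)) = x * y := by
  have h1 : bits (univ.filter (fun v => ph D cd v x y = true)) = cd (x * y) := by
    ext b
    rw [mem_bits, mem_filter]
    simp [ph]
  have h2 : cc D (univ.filter (fun v => ph D cd v x y = true)) = ze D (x * y) := by
    ext j
    rw [mem_cc, ze_mul, mem_inter]
    simp only [mem_filter, mem_univ, true_and, ph, Bool.and_eq_true, decide_eq_true_eq, not_and,
      not_not]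
    constructor
    · rintro ⟨hj, h⟩
      refine ⟨(mem_ze D).2 ⟨hj, h x (fun h3 => absurd subset_rfl h3)⟩,
        (mem_ze D).2 ⟨hj, h y (fun _ => subset_rfl)⟩⟩
    · rintro ⟨h3, h4⟩
      refine ⟨((mem_ze D).1 h3).1, fun s hs => ?_⟩
      by_cases h5 : ze D x ⊆ ze D s
      · exact ((mem_ze D).1 (h5 h3)).2
      · exact ((mem_ze D).1 (hs h5 h4)).2
  unfold dl
  rw [h1, h2, Function.leftInverse_invFun hcd, if_pos rfl]

end

end Pool.Agent.N609.Mon
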