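import Pool.Agent.N609.Mon.Dat

/-!
# Monoids which are not tame
-/

set_option autoImplicit false
set_option linter.unusedSectionVars false
set_option linter.unusedVariables false

namespace Pool.Agent.N609.Mon

open Finset

/-- monoids generated by idempotents are tame -/
theorem tame_of_idem (S : Type) [Monoid S] (h : Submonoid.closure {e : S | e * e = e} = ⊤) :
    Tame S := by
  refine ⟨fun χ s => ?_, ?_⟩
  · have hs : s ∈ Submonoid.closure {e : S | e * e = e} := h ▸ Submonoid.mem_top s
    induction hs using Submonoid.closure_induction with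
    | mem e he =>
      have he' : e * e = e := he
      have h1 : χ e * χ e = χ e := by rw [← map_mul, he']
      rcases eq_or_ne (χ e) 0 with h0 | h0
      · exact Or.inl h0
      · right
        exact mul_left_cancel₀ h0 (by rw [h1, mul_one])
    | one => exact Or.inr (map_one χ)
    | mul x y _ _ hx hy =>
      rw [map_mul]
      rcases hx with hx | hx <;> rcases hy with hy | hy <;> rw [hx, hy] <;> simp
  · rintro ⟨π, hπ⟩
    have key : ∀ s : S, π s = Nil3.one ∨ π s = Nil3.zero := by
      intro s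
      have hs : s ∈ Submonoid.closure {e : S | e * e = e} := h ▸ Submonoid.mem_top s
      induction hs using Submonoid.closure_induction with
      | mem e he =>
        have he' : e * e = e := he
        have h1 : π e * π e = π e := by rw [← map_mul, he']
        rcases h2 : π e with _ | _ | _
        · exact Or.inl rfl
        · rw [h2, Nil3.aa] at h1
          cases h1
        · exact Or.inr rfl
      | one => exact Or.inl (map_one π)
      | mul x y _ _ hx hy =>
        rw [map_mul]
        rcases hx with hx | hx <;> rcases hy with hy | hy <;> rw [hx, hy]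
        · left; rfl
        · right; rfl
        · right; rfl
        · right; rfl
    obtain ⟨s, hs⟩ := hπ Nil3.a
    rcases key s with h1 | h1 <;> rw [hs] at h1 <;> cases h1

/-- perfect groups are tame -/
theorem tame_of_perfect (G : Type) [Group G] (h : commutator G = ⊤) : Tame G := by
  refine ⟨fun χ s => Or.inr ?_, ?_⟩
  · let χ' : G →* ℂˣ := χ.toHomUnits
    have h1 : commutator G ≤ χ'.ker := by
      rw [commutator_def, Subgroup.commutator_le]
      intro a _ b _
      rw [MonoidHom.mem_ker, commutatorElement_def, map_mul, map_mul, map_mul, map_inv, map_inv]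
      rw [mul_comm (χ' a), mul_assoc, mul_assoc, mul_comm, mul_assoc]
      simp
    have h2 : s ∈ χ'.ker := h1 (h ▸ Subgroup.mem_top s)
    have h3 : χ' s = 1 := h2
    have h4 : ((χ' s : ℂˣ) : ℂ) = χ s := rfl
    rw [← h4, h3, Units.val_one]
  · rintro ⟨π, hπ⟩
    obtain ⟨s, hs⟩ := hπ Nil3.a
    have h1 : π s * π s⁻¹ = Nil3.one := by
      rw [← map_mul, mul_inv_cancel, map_one]
      rfl
    rw [hs] at h1
    rcases h2 : π s⁻¹ with _ | _ | _ <;> rw [h2] at h1 <;> cases h1

theorem rank_add_le {m n : Type} [Fintype m] [Fintype n] (A B : Matrix m n ℝ) :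
    (A + B).rank ≤ A.rank + B.rank := by
  unfold Matrix.rank
  rw [Matrix.mulVecLin_add]
  refine (Submodule.finrank_mono (LinearMap.range_add_le _ _)).trans ?_
  exact Submodule.finrank_add_le_finrank_add_finrank _ _

theorem rank_ABC_le {m n k l : Type} [Fintype m] [Fintype n] [Fintype k] [Fintype l]
    (A : Matrix m n ℝ) (B : Matrix n k ℝ) (C : Matrix k l ℝ) : (A * B * C).rank ≤ B.rank :=
  (Matrix.rank_mul_le_left _ _).trans (Matrix.rank_mul_le_right _ _)

/-- characters with other values: XOR functions modulo a prime -/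
theorem conv_char {S : Type} [Fintype S] [Monoid S] (χ : S →* ℂ) {s1 : S} (h0 : χ s1 ≠ 0)
    (h1 : χ s1 ≠ 1) : ∃ (p : ℕ) (_ : Fact p.Prime), ∀ (n : ℕ) (g : (Fin n → ZMod p) → Bool),
      ∃ (f : (Fin n → S) → Bool) (α : (Fin n → ZMod p) → Fin n → S),
        (∀ x y, f (α x * α y) = g (x + y)) ∧
        (Matrix.of (fun z w : Fin n → S => if f (z * w) then (1 : ℝ) else 0)).rank ≤
          (Matrix.of (fun x y : Fin n → ZMod p => if g (x + y) then (1 : ℝ) else 0)).rank := by
  classical
  -- a power with values `0, 1`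
  have hb : ∀ s : S, ∃ b : ℕ, 0 < b ∧ (χ s ≠ 0 → χ s ^ b = 1) := by
    intro s
    obtain ⟨a1, b1, hab, hpow⟩ := Set.Finite.exists_lt_map_eq_of_forall_mem
      (t := (Set.univ : Set S)) (f := fun k : ℕ => s ^ k) (fun _ => Set.mem_univ _)
      Set.finite_univ
    refine ⟨b1 - a1, by omega, fun hs => ?_⟩
    have h2 : χ s ^ a1 = χ s ^ b1 := by
      rw [← map_pow, ← map_pow]
      exact congrArg χ hpow
    have h3 : χ s ^ a1 * χ s ^ (b1 - a1) = χ s ^ a1 * 1 := by
      rw [← pow_add, mul_one, h2]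
      congr 1
      omega
    exact mul_left_cancel₀ (pow_ne_zero _ hs) h3
  choose b hb0 hb1 using hb
  have hex : ∃ m : ℕ, 0 < m ∧ ∀ s, χ s ≠ 0 → χ s ^ m = 1 := by
    refine ⟨∏ s, b s, prod_pos fun s _ => hb0 s, fun s hs => ?_⟩
    obtain ⟨c, hc⟩ := dvd_prod_of_mem b (mem_univ s)
    rw [hc, pow_mul, hb1 s hs, one_pow]
  set m := Nat.find hex with hm
  have hm1 := Nat.find_spec hex
  rw [← hm] at hm1
  have hm2 : m ≠ 1 := by
    intro h
    have := hm1.2 s1 h0
    rw [h, pow_one] at this
    exact h1 this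
  set p := m.minFac with hp
  have hpp : p.Prime := Nat.minFac_prime hm2
  obtain ⟨m', hm'⟩ : p ∣ m := Nat.minFac_dvd m
  have hm'0 : 0 < m' := by
    rcases Nat.eq_zero_or_pos m' with h | h
    · rw [h, mul_zero] at hm'
      omega
    · exact h
  have hlt : m' < m := by
    rw [hm']
    have := hpp.two_le
    nlinarith
  have hnot := Nat.find_min hex (hm ▸ hlt)
  push Not at hnot
  obtain ⟨s2, hs2, hs2'⟩ := hnot hm'0
  have : Fact p.Prime := ⟨hpp⟩
  refine ⟨p, this, ?_⟩
  let ψ : S →* ℂ := χ ^ m'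
  have hψ : ∀ s, ψ s = χ s ^ m' := fun s => rfl
  have hψp : ∀ s, ψ s ≠ 0 → ψ s ^ p = 1 := by
    intro s hs
    rw [hψ, ← pow_mul, mul_comm, ← hm']
    refine hm1.2 s fun h => hs ?_
    rw [hψ, h, zero_pow hm'0.ne']
  set ω := ψ s2 with hω
  have hω0 : ω ≠ 0 := by
    rw [hω, hψ]
    exact pow_ne_zero _ hs2
  have hω1 : ω ≠ 1 := hs2'
  have hord : orderOf ω = p := orderOf_eq_prime (hψp s2 hω0) hω1
  have hprim : IsPrimitiveRoot ω p := hord ▸ IsPrimitiveRoot.orderOf ω
  have hlg : ∀ s, ∃ i : ℕ, ψ s ≠ 0 → ω ^ i = ψ s := by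
    intro s
    by_cases hs : ψ s = 0
    · exact ⟨0, fun h => absurd hs h⟩
    · obtain ⟨i, _, hi⟩ := hprim.eq_pow_of_pow_eq_one (hψp s hs)
      exact ⟨i, fun _ => hi⟩
  choose lg hlg using hlg
  have hmod : ∀ i j : ℕ, ω ^ i = ω ^ j → i ≡ j [MOD p] := by
    intro i j hij
    rw [← pow_mod_orderOf ω i, ← pow_mod_orderOf ω j, hord] at hij
    exact hprim.pow_inj (Nat.mod_lt _ hpp.pos) (Nat.mod_lt _ hpp.pos) hij
  have hlgmul : ∀ s t, ψ s ≠ 0 → ψ t ≠ 0 → ((lg (s * t) : ℕ) : ZMod p) = lg s + lg t := by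
    intro s t hs ht
    have hst : ψ (s * t) ≠ 0 := by
      rw [map_mul]
      exact mul_ne_zero hs ht
    have h2 : ω ^ lg (s * t) = ω ^ (lg s + lg t) := by
      rw [hlg _ hst, pow_add, hlg _ hs, hlg _ ht, map_mul]
    rw [← Nat.cast_add]
    exact (ZMod.natCast_eq_natCast_iff _ _ _).2 (hmod _ _ h2)
  have hlgs : ∀ i : ℕ, ((lg (s2 ^ i) : ℕ) : ZMod p) = i := by
    intro i
    have h2 : ω ^ lg (s2 ^ i) = ω ^ i := by
      rw [hlg _ (by rw [map_pow]; exact pow_ne_zero _ hω0), map_pow]
    exact (ZMod.natCast_eq_natCast_iff _ _ _).2 (hmod _ _ h2)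
  intro n g
  let Ok : (Fin n → S) → Prop := fun z => ∀ i, ψ (z i) ≠ 0
  let L : (Fin n → S) → Fin n → ZMod p := fun z i => (lg (z i) : ZMod p)
  have hOk : ∀ z w, Ok (z * w) ↔ Ok z ∧ Ok w := by
    intro z w
    simp only [Ok, Pi.mul_apply, map_mul, mul_ne_zero_iff]
    exact forall_and
  have hL : ∀ z w, Ok z → Ok w → L (z * w) = L z + L w := by
    intro z w hz hw
    funext i
    exact hlgmul _ _ (hz i) (hw i)
  refine ⟨fun z => if Ok z then g (L z) else false, fun x i => s2 ^ (x i).val, ?_, ?_⟩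
  · intro x y
    have hα : ∀ x : Fin n → ZMod p, Ok (fun i => s2 ^ (x i).val) := by
      intro x i
      simp only [map_pow]
      exact pow_ne_zero _ hω0
    have hαL : ∀ x : Fin n → ZMod p, L (fun i => s2 ^ (x i).val) = x := by
      intro x
      funext i
      simp only [L]
      rw [hlgs, ZMod.natCast_zmod_val]
    beta_reduce
    rw [if_pos ((hOk _ _).2 ⟨hα x, hα y⟩), hL _ _ (hα x) (hα y), hαL, hαL]
  · let P : Matrix (Fin n → S) (Fin n → ZMod p) ℝ :=
      Matrix.of fun z x => if Ok z ∧ L z = x then 1 else 0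
    have hF : Matrix.of (fun z w : Fin n → S =>
        if (if Ok (z * w) then g (L (z * w)) else false) then (1 : ℝ) else 0) =
        P * (Matrix.of (fun x y : Fin n → ZMod p => if g (x + y) then (1 : ℝ) else 0)) *
          P.transpose := by
      ext z w
      rw [Matrix.mul_apply]
      simp only [Matrix.mul_apply, Matrix.of_apply, Matrix.transpose_apply, P]
      by_cases hz : Ok z
      · by_cases hw : Ok w
        · rw [if_pos ((hOk _ _).2 ⟨hz, hw⟩), hL _ _ hz hw]
          rw [sum_eq_single (L w)]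
          · rw [sum_eq_single (L z)]
            · simp [hz, hw]
            · intro x _ hx
              rw [if_neg (fun h => hx h.2.symm), zero_mul]
            · simp
          · intro y _ hy
            rw [if_neg (fun h : Ok w ∧ L w = y => hy h.2.symm), mul_zero]
          · simp
        · have : ¬ Ok (z * w) := fun h => hw ((hOk _ _).1 h).2
          simp [this, hw]
      · have : ¬ Ok (z * w) := fun h => hz ((hOk _ _).1 h).1
        simp [this, hz]
    rw [hF]
    exact rank_ABC_le _ _ _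

theorem Nil3.mul_eq_one {u v : Nil3} : u * v = Nil3.one ↔ u = Nil3.one ∧ v = Nil3.one := by
  constructor
  · intro h
    rcases u with _ | _ | _ <;> rcases v with _ | _ | _ <;> first | exact ⟨rfl, rfl⟩ | cases h
  · rintro ⟨rfl, rfl⟩
    rfl

theorem Nil3.mul_eq_a {u v : Nil3} : u * v = Nil3.a ↔
    (u = Nil3.a ∧ v = Nil3.one) ∨ (u = Nil3.one ∧ v = Nil3.a) := by
  constructor
  · intro h
    rcases u with _ | _ | _ <;> rcases v with _ | _ | _ <;>
      first
        | exact Or.inl ⟨rfl, rfl⟩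
        | exact Or.inr ⟨rfl, rfl⟩
        | cases h
  · rintro (⟨rfl, rfl⟩ | ⟨rfl, rfl⟩) <;> rfl

section nil

variable {S : Type} [Fintype S] [Monoid S] (π : S →* Nil3) {X Y : Type} [Fintype X] [Fintype Y]
  [DecidableEq X] [DecidableEq Y]

/-- `π z` is `a` exactly on `T` and `1` elsewhere -/
def PT (T : Finset (X ⊕ Y)) (z : X ⊕ Y → S) : Prop :=
  ∀ i, π (z i) = if i ∈ T then Nil3.a else Nil3.one

theorem PT.unique {T T' : Finset (X ⊕ Y)} {z : X ⊕ Y → S} (h : PT π T z) (h' : PT π T' z) :
    T = T' := by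
  ext i
  have h1 := h i
  rw [h' i] at h1
  by_cases h2 : i ∈ T <;> by_cases h3 : i ∈ T' <;> simp [h2, h3] at h1 ⊢

theorem PT_mul {x : X} {y : Y} {z w : X ⊕ Y → S} : PT π {Sum.inl x, Sum.inr y} (z * w) ↔
    (PT π {Sum.inl x} z ∧ PT π {Sum.inr y} w) ∨ (PT π {Sum.inl x} w ∧ PT π {Sum.inr y} z) ∨
      (PT π {Sum.inl x, Sum.inr y} z ∧ PT π ∅ w) ∨
      (PT π ∅ z ∧ PT π {Sum.inl x, Sum.inr y} w) := by
  constructor
  · intro h
    have hx := h (Sum.inl x)
    have hy := h (Sum.inr y)
    rw [if_pos (by simp), Pi.mul_apply, map_mul, Nil3.mul_eq_a] at hx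
    rw [if_pos (by simp), Pi.mul_apply, map_mul, Nil3.mul_eq_a] at hy
    have ho : ∀ i, i ≠ Sum.inl x → i ≠ Sum.inr y → π (z i) = Nil3.one ∧ π (w i) = Nil3.one := by
      intro i h1 h2
      have h3 := h i
      rw [if_neg (by simp [h1, h2]), Pi.mul_apply, map_mul, Nil3.mul_eq_one] at h3
      exact h3
    have key : ∀ (u : X ⊕ Y → S) (T : Finset (X ⊕ Y)), T ⊆ {Sum.inl x, Sum.inr y} →
        (∀ i, i ≠ Sum.inl x → i ≠ Sum.inr y → π (u i) = Nil3.one) →
        (π (u (Sum.inl x)) = if Sum.inl x ∈ T then Nil3.a else Nil3.one) →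
        (π (u (Sum.inr y)) = if Sum.inr y ∈ T then Nil3.a else Nil3.one) → PT π T u := by
      intro u T hT h1 h2 h3 i
      by_cases hi : i = Sum.inl x
      · rw [hi]; exact h2
      · by_cases hi' : i = Sum.inr y
        · rw [hi']; exact h3
        · rw [h1 i hi hi', if_neg]
          intro h4
          have h5 := hT h4
          rw [mem_insert, mem_singleton] at h5
          exact h5.elim hi hi'
    have hz1 := fun i h1 h2 => (ho i h1 h2).1
    have hw1 := fun i h1 h2 => (ho i h1 h2).2
    rcases hx with ⟨hx1, hx2⟩ | ⟨hx1, hx2⟩ <;> rcases hy with ⟨hy1, hy2⟩ | ⟨hy1, hy2⟩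
    · right; right; left
      exact ⟨key z _ subset_rfl hz1 (by simp [hx1]) (by simp [hy1]),
        key w _ (empty_subset _) hw1 (by simp [hx2]) (by simp [hy2])⟩
    · left
      exact ⟨key z _ (by simp) hz1 (by simp [hx1]) (by simp [hy1]),
        key w _ (by simp) hw1 (by simp [hx2]) (by simp [hy2])⟩
    · right; left
      exact ⟨key w _ (by simp) hw1 (by simp [hx2]) (by simp [hy2]),
        key z _ (by simp) hz1 (by simp [hx1]) (by simp [hy1])⟩
    · right; right; right
      exact ⟨key z _ (empty_subset _) hz1 (by simp [hx1]) (by simp [hy1]),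
        key w _ subset_rfl hw1 (by simp [hx2]) (by simp [hy2])⟩
  · intro h i
    rw [Pi.mul_apply, map_mul]
    by_cases hi : i = Sum.inl x
    · subst hi
      rw [if_pos (by simp), Nil3.mul_eq_a]
      rcases h with ⟨h1, h2⟩ | ⟨h1, h2⟩ | ⟨h1, h2⟩ | ⟨h1, h2⟩ <;>
        have h3 := h1 (Sum.inl x) <;> have h4 := h2 (Sum.inl x) <;> simp at h3 h4 <;>
        simp [h3, h4]
    · by_cases hi' : i = Sum.inr y
      · subst hi'
        rw [if_pos (by simp), Nil3.mul_eq_a]
        rcases h with ⟨h1, h2⟩ | ⟨h1, h2⟩ | ⟨h1, h2⟩ | ⟨h1, h2⟩ <;>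
          have h3 := h1 (Sum.inr y) <;> have h4 := h2 (Sum.inr y) <;> simp at h3 h4 <;>
          simp [h3, h4]
      · rw [if_neg (by simp [hi, hi']), Nil3.mul_eq_one]
        rcases h with ⟨h1, h2⟩ | ⟨h1, h2⟩ | ⟨h1, h2⟩ | ⟨h1, h2⟩ <;>
          have h3 := h1 i <;> have h4 := h2 i <;> simp [hi, hi'] at h3 h4 <;>
          simp [h3, h4]

open Classical in
theorem conv_nil (hπ : Function.Surjective π) (G : X → Y → Bool) :
    ∃ (f : (X ⊕ Y → S) → Bool) (α : X → X ⊕ Y → S) (β : Y → X ⊕ Y → S),
      (∀ x y, f (α x * β y) = G x y) ∧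
      (Matrix.of (fun z w : X ⊕ Y → S => if f (z * w) then (1 : ℝ) else 0)).rank ≤
        2 * (Matrix.of (fun x y => if G x y then (1 : ℝ) else 0)).rank + 2 := by
  obtain ⟨a0, ha0⟩ := hπ Nil3.a
  have hone : π 1 = Nil3.one := map_one π
  have hα : ∀ x : X, PT (X := X) (Y := Y) π {Sum.inl x}
      (fun i => if i = Sum.inl x then a0 else 1) := by
    intro x i
    beta_reduce
    by_cases hi : i = Sum.inl x
    · simp [hi, ha0]
    · simp [hi, hone]
  have hβ : ∀ y : Y, PT (X := X) (Y := Y) π {Sum.inr y}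
      (fun i => if i = Sum.inr y then a0 else 1) := by
    intro y i
    beta_reduce
    by_cases hi : i = Sum.inr y
    · simp [hi, ha0]
    · simp [hi, hone]
  have hne1 : ∀ (x : X) (y : Y), ({Sum.inl x} : Finset (X ⊕ Y)) ≠ {Sum.inr y} := by
    intro x y h
    have : (Sum.inl x : X ⊕ Y) ∈ ({Sum.inr y} : Finset (X ⊕ Y)) := h ▸ mem_singleton_self _
    simp at this
  have hne2 : ∀ (x x' : X) (y : Y),
      ({Sum.inl x} : Finset (X ⊕ Y)) ≠ {Sum.inl x', Sum.inr y} := by
    intro x x' y h
    have : (Sum.inr y : X ⊕ Y) ∈ ({Sum.inl x} : Finset (X ⊕ Y)) := by rw [h]; simp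
    simp at this
  have hne3 : ∀ (x : X) (y y' : Y),
      ({Sum.inr y} : Finset (X ⊕ Y)) ≠ {Sum.inl x, Sum.inr y'} := by
    intro x y y' h
    have : (Sum.inl x : X ⊕ Y) ∈ ({Sum.inr y} : Finset (X ⊕ Y)) := by rw [h]; simp
    simp at this
  have hinj : ∀ (x x' : X) (y y' : Y),
      ({Sum.inl x, Sum.inr y} : Finset (X ⊕ Y)) = {Sum.inl x', Sum.inr y'} →
      x = x' ∧ y = y' := by
    intro x x' y y' h
    have h1 : (Sum.inl x : X ⊕ Y) ∈ ({Sum.inl x', Sum.inr y'} : Finset (X ⊕ Y)) := by
      rw [← h]; simp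
    have h2 : (Sum.inr y : X ⊕ Y) ∈ ({Sum.inl x', Sum.inr y'} : Finset (X ⊕ Y)) := by
      rw [← h]; simp
    simpa using And.intro h1 h2
  let f : (X ⊕ Y → S) → Bool := fun z =>
    decide (∃ x y, G x y = true ∧ PT π {Sum.inl x, Sum.inr y} z)
  refine ⟨f, fun x i => if i = Sum.inl x then a0 else 1,
    fun y i => if i = Sum.inr y then a0 else 1, ?_, ?_⟩
  · intro x y
    have h1 : PT π {Sum.inl x, Sum.inr y} ((fun i => if i = Sum.inl x then a0 else 1) *
        (fun i => if i = Sum.inr y then a0 else 1)) :=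
      (PT_mul π).2 (Or.inl ⟨hα x, hβ y⟩)
    rw [Bool.eq_iff_iff, decide_eq_true_iff]
    constructor
    · rintro ⟨x', y', h2, h3⟩
      obtain ⟨rfl, rfl⟩ := hinj _ _ _ _ (h1.unique π h3)
      exact h2
    · exact fun h => ⟨x, y, h, h1⟩
  · let A : (X ⊕ Y → S) → (X ⊕ Y → S) → Prop := fun z w =>
      ∃ x y, G x y = true ∧ PT π {Sum.inl x} z ∧ PT π {Sum.inr y} w
    let C : (X ⊕ Y → S) → (X ⊕ Y → S) → Prop := fun z w =>
      (∃ x y, G x y = true ∧ PT π {Sum.inl x, Sum.inr y} z) ∧ PT π ∅ w
    let M1 : Matrix (X ⊕ Y → S) (X ⊕ Y → S) ℝ := Matrix.of fun z w => if A z w then 1 else 0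
    let M3 : Matrix (X ⊕ Y → S) (X ⊕ Y → S) ℝ := Matrix.of fun z w => if C z w then 1 else 0
    have hf : ∀ z w, f (z * w) = true ↔ A z w ∨ A w z ∨ C z w ∨ C w z := by
      intro z w
      simp only [f, decide_eq_true_iff, PT_mul, A, C]
      constructor
      · rintro ⟨x, y, hG, h | h | h | h⟩
        · exact Or.inl ⟨x, y, hG, h.1, h.2⟩
        · exact Or.inr (Or.inl ⟨x, y, hG, h.1, h.2⟩)
        · exact Or.inr (Or.inr (Or.inl ⟨⟨x, y, hG, h.1⟩, h.2⟩))
        · exact Or.inr (Or.inr (Or.inr ⟨⟨x, y, hG, h.2⟩, h.1⟩))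
      · rintro (⟨x, y, hG, h1, h2⟩ | ⟨x, y, hG, h1, h2⟩ | ⟨⟨x, y, hG, h1⟩, h2⟩ |
          ⟨⟨x, y, hG, h1⟩, h2⟩)
        · exact ⟨x, y, hG, Or.inl ⟨h1, h2⟩⟩
        · exact ⟨x, y, hG, Or.inr (Or.inl ⟨h1, h2⟩)⟩
        · exact ⟨x, y, hG, Or.inr (Or.inr (Or.inl ⟨h1, h2⟩))⟩
        · exact ⟨x, y, hG, Or.inr (Or.inr (Or.inr ⟨h2, h1⟩))⟩
    have e1 : ∀ z w, A z w → ¬ A w z := by
      rintro z w ⟨x, y, _, h1, _⟩ ⟨x', y', _, _, h2⟩
      exact hne1 _ _ (h1.unique π h2)
    have e2 : ∀ z w, A z w → ¬ C z w := by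
      rintro z w ⟨x, y, _, h1, _⟩ ⟨⟨x', y', _, h2⟩, _⟩
      exact hne2 _ _ _ (h1.unique π h2)
    have e3 : ∀ z w, A z w → ¬ C w z := by
      rintro z w ⟨x, y, _, h1, _⟩ ⟨_, h2⟩
      exact singleton_ne_empty _ (h1.unique π h2)
    have e4 : ∀ z w, A w z → ¬ C z w := by
      rintro z w ⟨x, y, _, _, h1⟩ ⟨⟨x', y', _, h2⟩, _⟩
      exact hne3 _ _ _ (h1.unique π h2)
    have e5 : ∀ z w, A w z → ¬ C w z := by
      rintro z w ⟨x, y, _, _, h1⟩ ⟨_, h2⟩
      exact singleton_ne_empty _ (h1.unique π h2)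
    have e6 : ∀ z w, C z w → ¬ C w z := by
      rintro z w ⟨⟨x, y, _, h1⟩, _⟩ ⟨_, h2⟩
      exact insert_ne_empty _ _ (h1.unique π h2)
    have hF : Matrix.of (fun z w : X ⊕ Y → S => if f (z * w) then (1 : ℝ) else 0) =
        (M1 + M1.transpose) + (M3 + M3.transpose) := by
      ext z w
      simp only [Matrix.add_apply, Matrix.transpose_apply, Matrix.of_apply, M1, M3, hf]
      by_cases hA : A z w
      · simp [hA, e1 z w hA, e2 z w hA, e3 z w hA]
      · by_cases hB : A w z
        · simp [hA, hB, e4 z w hB, e5 z w hB]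
        · by_cases hC : C z w
          · simp [hA, hB, hC, e6 z w hC]
          · simp [hA, hB, hC]
    have hM1 : M1.rank ≤ (Matrix.of (fun x y => if G x y then (1 : ℝ) else 0)).rank := by
      let U : Matrix (X ⊕ Y → S) X ℝ := Matrix.of fun z x => if PT π {Sum.inl x} z then 1 else 0
      let V : Matrix Y (X ⊕ Y → S) ℝ := Matrix.of fun y w => if PT π {Sum.inr y} w then 1 else 0
      have h1 : M1 = U * (Matrix.of (fun x y => if G x y then (1 : ℝ) else 0)) * V := by
        ext z w
        rw [Matrix.mul_apply]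
        simp only [Matrix.mul_apply, Matrix.of_apply, M1, U, V]
        by_cases hz : ∃ x, PT π {Sum.inl x} z
        · obtain ⟨x, hx⟩ := hz
          by_cases hw : ∃ y, PT π {Sum.inr y} w
          · obtain ⟨y, hy⟩ := hw
            have hxu : ∀ x', PT π {Sum.inl x'} z ↔ x' = x := by
              intro x'
              constructor
              · intro h
                have := h.unique π hx
                simpa using this
              · rintro rfl
                exact hx
            have hyu : ∀ y', PT π {Sum.inr y'} w ↔ y' = y := by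
              intro y'
              constructor
              · intro h
                have := h.unique π hy
                simpa using this
              · rintro rfl
                exact hy
            simp only [A, hxu, hyu]
            rw [sum_eq_single y]
            · rw [sum_eq_single x]
              · by_cases hG : G x y = true
                · rw [if_pos ⟨x, y, hG, rfl, rfl⟩]
                  simp [hG]
                · rw [if_neg]
                  · simp [hG]
                  · rintro ⟨x', y', h3, rfl, rfl⟩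
                    exact hG h3
              · intro x' _ hx'
                rw [if_neg hx', zero_mul]
              · simp
            · intro y' _ hy'
              rw [if_neg hy', mul_zero]
            · simp
          · push Not at hw
            rw [if_neg]
            · simp [hw]
            · rintro ⟨x', y', _, _, h3⟩
              exact hw y' h3
        · push Not at hz
          rw [if_neg]
          · simp [hz]
          · rintro ⟨x', y', _, h3, _⟩
            exact hz x' h3
      rw [h1]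
      exact rank_ABC_le _ _ _
    have hM3 : M3.rank ≤ 1 := by
      have h1 : M3 = Matrix.vecMulVec
          (fun z => if (∃ x y, G x y = true ∧ PT π {Sum.inl x, Sum.inr y} z) then (1 : ℝ) else 0)
          (fun w => if PT π ∅ w then (1 : ℝ) else 0) := by
        ext z w
        simp only [Matrix.vecMulVec_apply, Matrix.of_apply, M3, C]
        by_cases h2 : (∃ x y, G x y = true ∧ PT π {Sum.inl x, Sum.inr y} z) <;>
          by_cases h3 : PT π ∅ w <;> simp only [h2, h3, and_self, and_true, and_false,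
            if_true, if_false, mul_one, mul_zero]
      rw [h1]
      exact Matrix.rank_vecMulVec_le _ _
    rw [hF]
    have h1 := rank_add_le (M1 + M1.transpose) (M3 + M3.transpose)
    have h2 := rank_add_le M1 M1.transpose
    have h3 := rank_add_le M3 M3.transpose
    rw [Matrix.rank_transpose] at h2 h3
    omega

end nil

end Pool.Agent.N609.Mon
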