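import Pool.Agent.N609.Mon.Dat

/-!
# Evaluation of a function at pure tensors, and the rank
-/

set_option autoImplicit false
set_option linter.unusedSectionVars false
set_option linter.unusedVariables false

namespace Pool.Agent.N609.Mon

open Finset

/-- the coefficient functional -/
def co {S : Type} [Monoid S] (s : S) : MonoidAlgebra ℂ S →ₗ[ℂ] ℂ where
  toFun a := a.coeff s
  map_add' _ _ := rfl
  map_smul' _ _ := rfl

theorem co_of {S : Type} [Monoid S] [DecidableEq S] (s t : S) :
    co s (of t) = if t = s then 1 else 0 := by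
  change (MonoidAlgebra.single t (1 : ℂ)).coeff s = _
  rw [MonoidAlgebra.coeff_single, Finsupp.single_apply]

theorem expand {S : Type} [Monoid S] [Fintype S] (a : MonoidAlgebra ℂ S) :
    a = ∑ s, co s a • of s := by
  classical
  apply MonoidAlgebra.coeff_injective
  ext t
  have h : ∀ b : MonoidAlgebra ℂ S, b.coeff t = co t b := fun _ => rfl
  rw [h, h, map_sum, Finset.sum_eq_single t]
  · rw [map_smul, co_of, if_pos rfl, smul_eq_mul, mul_one]
  · intro s _ hs
    rw [map_smul, co_of, if_neg hs, smul_zero]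
  · simp

section

variable {ι : Type} [Fintype ι] [DecidableEq ι] {S : ι → Type} [∀ i, Fintype (S i)]
  [∀ i, Monoid (S i)]

theorem multi_expand (T : MultilinearMap ℂ (fun i => MonoidAlgebra ℂ (S i)) ℂ)
    (p : ∀ i, MonoidAlgebra ℂ (S i)) :
    T p = ∑ x : ∀ i, S i, (∏ i, co (x i) (p i)) * T (fun i => of (x i)) := by
  have h : p = fun i => ∑ s, co s (p i) • (of s : MonoidAlgebra ℂ (S i)) := by
    funext i
    exact expand (p i)
  conv_lhs => rw [h]
  rw [MultilinearMap.map_sum]
  refine sum_congr rfl fun x _ => ?_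
  rw [MultilinearMap.map_smul_univ, smul_eq_mul]

/-- the multilinear extension of a function on the product -/
noncomputable def ev (f : (∀ i, S i) → ℂ) :
    MultilinearMap ℂ (fun i => MonoidAlgebra ℂ (S i)) ℂ :=
  ∑ s : ∀ i, S i, f s • (MultilinearMap.mkPiAlgebra ℂ ι ℂ).compLinearMap (fun i => co (s i))

theorem ev_of (f : (∀ i, S i) → ℂ) (z : ∀ i, S i) : ev f (fun i => of (z i)) = f z := by
  classical
  unfold ev
  rw [_root_.sum_apply, Finset.sum_eq_single z]
  · rw [_root_.smul_apply, MultilinearMap.compLinearMap_apply,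
      MultilinearMap.mkPiAlgebra_apply, Finset.prod_eq_one, smul_eq_mul, mul_one]
    intro i _
    rw [co_of, if_pos rfl]
  · intro s _ hs
    rw [_root_.smul_apply, MultilinearMap.compLinearMap_apply,
      MultilinearMap.mkPiAlgebra_apply]
    have : ∃ i, z i ≠ s i := by
      by_contra hc
      push Not at hc
      exact hs (funext hc).symm
    obtain ⟨i, hi⟩ := this
    rw [Finset.prod_eq_zero (mem_univ i), smul_zero]
    rw [co_of, if_neg hi]
  · simp

theorem ev_mul (f : (∀ i, S i) → ℂ) (p q : ∀ i, MonoidAlgebra ℂ (S i)) :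
    ev f (fun i => p i * q i) = ∑ x : ∀ i, S i, ∑ y : ∀ i, S i,
      (∏ i, co (x i) (p i)) * f (x * y) * (∏ i, co (y i) (q i)) := by
  have h1 := multi_expand ((ev f).compLinearMap (fun i => LinearMap.mulRight ℂ (q i))) p
  simp only [MultilinearMap.compLinearMap_apply, LinearMap.mulRight_apply] at h1
  rw [h1]
  refine sum_congr rfl fun x _ => ?_
  have h2 := multi_expand ((ev f).compLinearMap
    (fun i => LinearMap.mulLeft ℂ (of (x i) : MonoidAlgebra ℂ (S i)))) q
  simp only [MultilinearMap.compLinearMap_apply, LinearMap.mulLeft_apply] at h2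
  rw [h2, mul_sum]
  refine sum_congr rfl fun y _ => ?_
  have h3 : ev f (fun i => of (x i) * of (y i)) = f (x * y) := by
    rw [← ev_of f (x * y)]
    congr 1
    funext i
    exact (map_mul _ _ _).symm
  rw [h3]
  ring

/-- the admissible tuples of idempotents -/
def InW (D : ∀ i, Dat (S i)) (f : (∀ i, S i) → ℂ) (σ : ∀ i, (D i).J) : Prop :=
  ∃ x y : ∀ i, S i, ev f (fun i => of (x i) * (D i).e (σ i) * of (y i)) ≠ 0

theorem card_le_rank (D : ∀ i, Dat (S i)) (f : (∀ i, S i) → ℂ) (W : Finset (∀ i, (D i).J))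
    (hW : ∀ σ ∈ W, InW D f σ) :
    W.card ≤ (Matrix.of fun x y : ∀ i, S i => f (x * y)).rank := by
  classical
  have h1 : ∀ σ : W, ∃ x y : ∀ i, S i,
      ev f (fun i => of (x i) * (D i).e (σ.1 i) * of (y i)) ≠ 0 := fun σ => hW σ.1 σ.2
  choose x y hxy using h1
  let P : Matrix W (∀ i, S i) ℂ := Matrix.of fun σ z =>
    ∏ i, co (z i) (of (x σ i) * (D i).e (σ.1 i))
  let Q : Matrix (∀ i, S i) W ℂ := Matrix.of fun z σ =>
    ∏ i, co (z i) ((D i).e (σ.1 i) * of (y σ i))
  have h2 : P * (Matrix.of fun x y : ∀ i, S i => f (x * y)) * Q = Matrix.diagonal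
      (fun σ : W => ev f (fun i => of (x σ i) * (D i).e (σ.1 i) * of (y σ i))) := by
    ext σ σ'
    have h3 : (P * (Matrix.of fun x y : ∀ i, S i => f (x * y)) * Q) σ σ' =
        ev f (fun i => (of (x σ i) * (D i).e (σ.1 i)) * ((D i).e (σ'.1 i) * of (y σ' i))) := by
      rw [ev_mul, Matrix.mul_apply, sum_comm]
      refine sum_congr rfl fun z' _ => ?_
      rw [Matrix.mul_apply, sum_mul]
      rfl
    rw [h3, Matrix.diagonal_apply]
    by_cases hσ : σ = σ'
    · subst hσ
      rw [if_pos rfl]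
      congr 1
      funext i
      rw [mul_assoc, ← mul_assoc ((D i).e (σ.1 i)), (D i).idem, mul_assoc]
    · rw [if_neg hσ]
      have : ∃ i, σ.1 i ≠ σ'.1 i := by
        by_contra hc
        push Not at hc
        exact hσ (Subtype.ext (funext hc))
      obtain ⟨i, hi⟩ := this
      refine (ev f).map_coord_zero i ?_
      rw [mul_assoc, ← mul_assoc ((D i).e (σ.1 i)), (D i).orth _ _ hi, zero_mul, mul_zero]
  have h3 : (P * (Matrix.of fun x y : ∀ i, S i => f (x * y)) * Q).rank ≤
      (Matrix.of fun x y : ∀ i, S i => f (x * y)).rank :=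
    (Matrix.rank_mul_le_left _ _).trans (Matrix.rank_mul_le_right _ _)
  rw [h2, Matrix.rank_diagonal] at h3
  have h4 : Fintype.card { σ : W // ev f (fun i => of (x σ i) * (D i).e (σ.1 i) * of (y σ i)) ≠ 0 }
      = W.card := by
    rw [Fintype.card_subtype, filter_true_of_mem (fun σ _ => hxy σ)]
    simp
  rw [← h4]
  exact h3

/-- many admissible tuples -/
theorem fam (D : ∀ i, Dat (S i)) (f : (∀ i, S i) → ℂ) (T : Finset ι) :
    ∀ (a : ∀ i, MonoidAlgebra ℂ (S i)) (σ : ∀ i, (D i).J) (x y : ∀ i, S i),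
      (∀ i ∈ T, ∀ j ∈ (D i).I, (D i).χ j (a i) = 0) →
      (∀ i, i ∉ T → a i = of (x i) * (D i).e (σ i) * of (y i)) → ev f a ≠ 0 →
      ∃ F : Finset (∀ i, (D i).J), F.card = 2 ^ T.card ∧
        ∀ σ' ∈ F, InW D f σ' ∧ ∀ i, i ∉ T → σ' i = σ i := by
  classical
  induction T using Finset.induction_on with
  | empty =>
    intro a σ x y _ h2 h3
    refine ⟨{σ}, by simp, ?_⟩
    intro σ' hσ'
    rw [mem_singleton] at hσ'
    subst hσ'
    refine ⟨⟨x, y, ?_⟩, fun _ _ => rfl⟩
    have : a = fun i => of (x i) * (D i).e (σ' i) * of (y i) := funext fun i =>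
      h2 i (notMem_empty i)
    rwa [this] at h3
  | insert i0 T hi0 ih =>
    intro a σ x y h1 h2 h3
    have hw : ((ev f).toLinearMap a i0) (a i0) ≠ 0 := by
      rw [MultilinearMap.toLinearMap_apply, Function.update_eq_self]
      exact h3
    obtain ⟨j, j', hjj, ⟨x1, y1, hx1⟩, ⟨x2, y2, hx2⟩⟩ := (D i0).sep _ (a i0)
      (h1 i0 (mem_insert_self _ _)) hw
    have step : ∀ (j : (D i0).J) (x1 y1 : S i0),
        ((ev f).toLinearMap a i0) (of x1 * (D i0).e j * of y1) ≠ 0 →
        ∃ F : Finset (∀ i, (D i).J), F.card = 2 ^ T.card ∧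
        ∀ σ' ∈ F, InW D f σ' ∧ (∀ i, i ∉ insert i0 T → σ' i = σ i) ∧ σ' i0 = j := by
      intro j x1 y1 hx1
      rw [MultilinearMap.toLinearMap_apply] at hx1
      obtain ⟨F, hF, hF2⟩ := ih (Function.update a i0 (of x1 * (D i0).e j * of y1))
        (Function.update σ i0 j) (Function.update x i0 x1) (Function.update y i0 y1) (by
          intro i hi
          have hne : i ≠ i0 := fun h => hi0 (h ▸ hi)
          rw [Function.update_of_ne hne]
          exact h1 i (mem_insert_of_mem hi)) (by
          intro i hi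
          by_cases hne : i = i0
          · subst hne
            simp only [Function.update_self]
          · simp only [Function.update_of_ne hne]
            exact h2 i (by
              rw [mem_insert]
              exact fun h => h.elim hne hi)) hx1
      refine ⟨F, hF, fun σ' hσ' => ⟨(hF2 σ' hσ').1, ?_, ?_⟩⟩
      · intro i hi
        rw [mem_insert, not_or] at hi
        rw [(hF2 σ' hσ').2 i hi.2, Function.update_of_ne hi.1]
      · rw [(hF2 σ' hσ').2 i0 hi0, Function.update_self]
    obtain ⟨F1, hF1, hF1'⟩ := step j x1 y1 hx1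
    obtain ⟨F2, hF2, hF2'⟩ := step j' x2 y2 hx2
    refine ⟨F1 ∪ F2, ?_, ?_⟩
    · rw [card_union_of_disjoint, hF1, hF2, card_insert_of_notMem hi0, pow_succ]
      · ring
      · rw [disjoint_left]
        intro σ' h4 h5
        exact hjj ((hF1' σ' h4).2.2.symm.trans (hF2' σ' h5).2.2)
    · intro σ' hσ'
      rcases mem_union.1 hσ' with h | h
      · exact ⟨(hF1' σ' h).1, (hF1' σ' h).2.1⟩
      · exact ⟨(hF2' σ' h).1, (hF2' σ' h).2.1⟩

/-- an admissible tuple which avoids a given one -/
theorem avoid (D : ∀ i, Dat (S i)) (f : (∀ i, S i) → ℂ) (ρ : ∀ i, (D i).J) (T : Finset ι) :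
    ∀ (a : ∀ i, MonoidAlgebra ℂ (S i)) (σ : ∀ i, (D i).J) (x y : ∀ i, S i),
      (∀ i ∈ T, ∀ j ∈ (D i).I, (D i).χ j (a i) = 0) →
      (∀ i, i ∉ T → a i = of (x i) * (D i).e (σ i) * of (y i)) → ev f a ≠ 0 →
      ∃ σ' : ∀ i, (D i).J, InW D f σ' ∧ (∀ i, i ∉ T → σ' i = σ i) ∧ ∀ i ∈ T, σ' i ≠ ρ i := by
  classical
  induction T using Finset.induction_on with
  | empty =>
    intro a σ x y _ h2 h3
    refine ⟨σ, ⟨x, y, ?_⟩, fun _ _ => rfl, fun i hi => absurd hi (notMem_empty i)⟩
    have : a = fun i => of (x i) * (D i).e (σ i) * of (y i) := funext fun i =>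
      h2 i (notMem_empty i)
    rwa [this] at h3
  | insert i0 T hi0 ih =>
    intro a σ x y h1 h2 h3
    have hw : ((ev f).toLinearMap a i0) (a i0) ≠ 0 := by
      rw [MultilinearMap.toLinearMap_apply, Function.update_eq_self]
      exact h3
    have hex : ∃ (j : (D i0).J) (x1 y1 : S i0), j ≠ ρ i0 ∧
        ((ev f).toLinearMap a i0) (of x1 * (D i0).e j * of y1) ≠ 0 := by
      obtain ⟨j, j', hjj, ⟨x1, y1, hx1⟩, ⟨x2, y2, hx2⟩⟩ := (D i0).sep _ (a i0)
        (h1 i0 (mem_insert_self _ _)) hw
      by_cases hj : j = ρ i0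
      · exact ⟨j', x2, y2, fun h => hjj (hj.trans h.symm), hx2⟩
      · exact ⟨j, x1, y1, hj, hx1⟩
    obtain ⟨j, x1, y1, hj, hx1⟩ := hex
    rw [MultilinearMap.toLinearMap_apply] at hx1
    obtain ⟨σ', hσ1, hσ2, hσ3⟩ := ih (Function.update a i0 (of x1 * (D i0).e j * of y1))
      (Function.update σ i0 j) (Function.update x i0 x1) (Function.update y i0 y1) (by
        intro i hi
        have hne : i ≠ i0 := fun h => hi0 (h ▸ hi)
        rw [Function.update_of_ne hne]
        exact h1 i (mem_insert_of_mem hi)) (by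
        intro i hi
        by_cases hne : i = i0
        · subst hne
          simp only [Function.update_self]
        · simp only [Function.update_of_ne hne]
          exact h2 i (by
            rw [mem_insert]
            exact fun h => h.elim hne hi)) hx1
    refine ⟨σ', hσ1, ?_, ?_⟩
    · intro i hi
      rw [mem_insert, not_or] at hi
      rw [hσ2 i hi.2, Function.update_of_ne hi.1]
    · intro i hi
      rcases mem_insert.1 hi with rfl | hi
      · rw [hσ2 i hi0, Function.update_self]
        exact hj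
      · exact hσ3 i hi

end

end Pool.Agent.N609.Mon
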