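import Pool.Agent.N609.Mon.Code
import Pool.Agent.N609.Mon.Ev
import Pool.Agent.N609.AndRank.Mix

/-!
# Counting the monomials
-/

set_option autoImplicit false
set_option linter.unusedSectionVars false
set_option linter.unusedVariables false

namespace Pool.Agent.N609.Mon

open Finset Pool.Agent.TH744.LR

noncomputable instance {S : Type} [Monoid S] (D : Dat S) : Fintype D.J := D.fin

section

variable {ι : Type} [Fintype ι] [DecidableEq ι] {S : ι → Type} [∀ i, Fintype (S i)]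
  [∀ i, Monoid (S i)] (D : ∀ i, Dat (S i)) (F : (∀ i, S i) → ℂ)

/-- patterns which occur -/
def Good (τ : ∀ i, Option (D i).J) : Prop :=
  ∃ a : ∀ i, MonoidAlgebra ℂ (S i), (∀ i, τ i = none → ∀ j ∈ (D i).I, (D i).χ j (a i) = 0) ∧
    (∀ i j, τ i = some j → a i = (D i).e j) ∧ ev F a ≠ 0

theorem Good.base {τ : ∀ i, Option (D i).J} {a : ∀ i, MonoidAlgebra ℂ (S i)}
    (h : ∀ i j, τ i = some j → a i = (D i).e j) : ∃ σ : ∀ i, (D i).J,
    (∀ i, τ i ≠ none → τ i = some (σ i)) ∧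
    ∀ i, i ∉ univ.filter (fun i => τ i = none) →
      a i = of ((1 : ∀ i, S i) i) * (D i).e (σ i) * of ((1 : ∀ i, S i) i) := by
  have h1 : ∀ i, ∃ s : (D i).J, τ i ≠ none → τ i = some s := by
    intro i
    rcases hτ : τ i with _ | j
    · exact ⟨(D i).ne.some, fun h => absurd rfl h⟩
    · exact ⟨j, fun _ => rfl⟩
  choose σ hσ using h1
  refine ⟨σ, hσ, fun i hi => ?_⟩
  have h2 : τ i ≠ none := by simpa using hi
  have h3 : (of ((1 : ∀ i, S i) i) : MonoidAlgebra ℂ (S i)) = 1 := map_one _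
  rw [h3, one_mul, mul_one]
  exact h i _ (hσ i h2)

theorem Good.pow_le {τ : ∀ i, Option (D i).J} (hτ : Good D F τ) {r : ℕ}
    (hr : ∀ W : Finset (∀ i, (D i).J), (∀ σ ∈ W, InW D F σ) → W.card ≤ r) :
    2 ^ (univ.filter (fun i => τ i = none)).card ≤ r := by
  obtain ⟨a, h1, h2, h3⟩ := hτ
  obtain ⟨σ, hσ1, hσ2⟩ := Good.base D h2
  obtain ⟨W, hW1, hW2⟩ := fam D F (univ.filter (fun i => τ i = none)) a σ 1 1
    (fun i hi => h1 i (mem_filter.1 hi).2) hσ2 h3
  rw [← hW1]
  exact hr W (fun σ' h => (hW2 σ' h).1)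

open Classical in
theorem Good.pair {τ : ∀ i, Option (D i).J} (hτ : Good D F τ) :
    ∃ σ1 σ2 : ∀ i, (D i).J, InW D F σ1 ∧ InW D F σ2 ∧
      τ = fun i => if σ1 i = σ2 i then some (σ1 i) else none := by
  obtain ⟨a, h1, h2, h3⟩ := hτ
  obtain ⟨σ, hσ1, hσ2⟩ := Good.base D h2
  obtain ⟨σ1, ha1, ha2, _⟩ := avoid D F σ (univ.filter (fun i => τ i = none)) a σ 1 1
    (fun i hi => h1 i (mem_filter.1 hi).2) hσ2 h3
  obtain ⟨σ2, hb1, hb2, hb3⟩ := avoid D F σ1 (univ.filter (fun i => τ i = none)) a σ 1 1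
    (fun i hi => h1 i (mem_filter.1 hi).2) hσ2 h3
  refine ⟨σ1, σ2, ha1, hb1, ?_⟩
  funext i
  by_cases hi : τ i = none
  · rw [if_neg, hi]
    exact fun h => hb3 i (mem_filter.2 ⟨mem_univ _, hi⟩) h.symm
  · have hi' : i ∉ univ.filter (fun i => τ i = none) := by simpa using hi
    rw [ha2 i hi', hb2 i hi', if_pos rfl]
    exact hσ1 i hi

open Classical in
theorem card_good {r : ℕ}
    (hr : ∀ W : Finset (∀ i, (D i).J), (∀ σ ∈ W, InW D F σ) → W.card ≤ r) :
    (univ.filter (fun τ : ∀ i, Option (D i).J => Good D F τ)).card ≤ r * r := by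
  have hW := hr (univ.filter (fun σ => InW D F σ)) (fun σ h => (mem_filter.1 h).2)
  refine le_trans ?_ (Nat.mul_le_mul hW hW)
  rw [← card_product]
  refine le_trans (card_le_card ?_) (card_image_le
    (s := (univ.filter (fun σ => InW D F σ)) ×ˢ (univ.filter (fun σ => InW D F σ)))
    (f := fun p : (∀ i, (D i).J) × (∀ i, (D i).J) => fun i =>
      if p.1 i = p.2 i then some (p.1 i) else none))
  intro τ hτ
  obtain ⟨σ1, σ2, h1, h2, h3⟩ := (mem_filter.1 hτ).2.pair
  rw [mem_image]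
  exact ⟨(σ1, σ2), mem_product.2 ⟨mem_filter.2 ⟨mem_univ _, h1⟩, mem_filter.2 ⟨mem_univ _, h2⟩⟩,
    h3.symm⟩

variable {k : ℕ} (cd : ∀ i, S i → Finset (Fin k))

open Classical in
/-- expansion of a coefficient -/
theorem expand_mem (U : ∀ i, Finset (S i ⊕ Fin k))
    (hU : ev F (fun i => CC (D i) (cd i) (U i)) ≠ 0) :
    ∃ τ : ∀ i, Option (D i).J, Good D F τ ∧ (∀ i j, τ i = some j → U i = Zs (D i) k j) ∧
      ∀ i, τ i = none → U i ∈ MM (D i) k := by
  let g : ∀ i, Option (D i).J → MonoidAlgebra ℂ (S i) := fun i o =>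
    match o with
    | some j => if j ∈ (D i).I then (D i).χ j (CC (D i) (cd i) (U i)) • (D i).e j else 0
    | none => CC (D i) (cd i) (U i) -
        ∑ j ∈ (D i).I, (D i).χ j (CC (D i) (cd i) (U i)) • (D i).e j
  have hg : (fun i => CC (D i) (cd i) (U i)) = fun i => ∑ o, g i o := by
    funext i
    rw [Fintype.sum_option]
    simp only [g]
    rw [← sum_filter, filter_mem_eq_inter, univ_inter, sub_add_cancel]
  rw [hg, MultilinearMap.map_sum] at hU
  obtain ⟨τ, _, hτ⟩ := exists_ne_zero_of_sum_ne_zero hU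
  have hne : ∀ i, g i (τ i) ≠ 0 := fun i h => hτ ((ev F).map_coord_zero i h)
  have hsome : ∀ i j, τ i = some j → U i = Zs (D i) k j ∧ g i (τ i) = (D i).e j := by
    intro i j hij
    have h1 := hne i
    rw [hij] at h1 ⊢
    simp only [g] at h1 ⊢
    by_cases hj : j ∈ (D i).I
    · rw [if_pos hj] at h1 ⊢
      rw [chi_CC (D i) (cd i) hj] at h1 ⊢
      by_cases h2 : U i = Zs (D i) k j
      · rw [if_pos h2, one_smul]
        exact ⟨h2, rfl⟩
      · rw [if_neg h2, zero_smul] at h1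
        exact absurd rfl h1
    · rw [if_neg hj] at h1
      exact absurd rfl h1
  refine ⟨τ, ⟨fun i => g i (τ i), ?_, fun i j hij => (hsome i j hij).2, hτ⟩,
    fun i j hij => (hsome i j hij).1, ?_⟩
  · intro i hi j hj
    simp only [hi, g]
    rw [map_sub, map_sum, sum_eq_single j]
    · rw [map_smul, (D i).χe j hj, smul_eq_mul, mul_one, sub_self]
    · intro j' _ hne
      rw [map_smul, (D i).χne j hj j' hne, smul_zero]
    · exact fun h => absurd hj h
  · intro i hi
    refine supp_CC (D i) (cd i) ?_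
    intro h0
    apply hne i
    rw [hi]
    simp only [g]
    rw [h0]
    simp

end

end Pool.Agent.N609.Mon
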