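import Pool.Agent.N609.Mon.Alg

/-!
# The structure of tame monoids
-/

set_option autoImplicit false
set_option linter.unusedSectionVars false
set_option linter.unusedVariables false

namespace Pool.Agent.N609.Mon

open Finset

/-- the monoid `{1, a, 0}` with `a * a = 0` -/
inductive Nil3 : Type
  | one : Nil3
  | a : Nil3
  | zero : Nil3

/-- the product of `{1, a, 0}` -/
def Nil3.mul : Nil3 → Nil3 → Nil3
  | .one, y => y
  | x, .one => x
  | _, _ => .zero

instance : Monoid Nil3 where
  mul := Nil3.mul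
  one := .one
  mul_assoc := by rintro (_ | _ | _) (_ | _ | _) (_ | _ | _) <;> rfl
  one_mul := by rintro (_ | _ | _) <;> rfl
  mul_one := by rintro (_ | _ | _) <;> rfl

theorem Nil3.one_def : (Nil3.one : Nil3) = 1 := rfl
theorem Nil3.aa : (Nil3.a * Nil3.a : Nil3) = Nil3.zero := rfl
theorem Nil3.az : (Nil3.a * Nil3.zero : Nil3) = Nil3.zero := rfl
theorem Nil3.za : (Nil3.zero * Nil3.a : Nil3) = Nil3.zero := rfl
theorem Nil3.zz : (Nil3.zero * Nil3.zero : Nil3) = Nil3.zero := rfl

/-- all characters have values `0, 1`, and `{1, a, 0}` is not a quotient -/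
def Tame (S : Type) [Monoid S] : Prop :=
  (∀ (χ : S →* ℂ) (s : S), χ s = 0 ∨ χ s = 1) ∧ ¬ ∃ π : S →* Nil3, Function.Surjective π

/-- the nilpotent part of a local quotient is trivial -/
theorem nil_part {S : Type} [Monoid S] {B : Type} [Ring B] [Nontrivial B] (q : S →* B)
    (χ : S →* ℂ) (h01 : ∀ s, χ s = 0 ∨ χ s = 1) (hu : ∀ s, χ s = 1 → q s = 1) {N : ℕ}
    (hN : ∀ l : List S, l.length = N → (∀ s ∈ l, χ s = 0) → (l.map q).prod = 0)
    (hS : ¬ ∃ π : S →* Nil3, Function.Surjective π) : ∀ s, χ s = 0 → q s = 0 := by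
  classical
  by_contra hcon
  push Not at hcon
  obtain ⟨s1, hs1, hs1'⟩ := hcon
  have hex : ∃ s0, χ s0 = 0 ∧ q s0 ≠ 0 ∧ ∀ t u, χ t = 0 → χ u = 0 → q t * q u ≠ q s0 := by
    by_contra hc
    push Not at hc
    have key : ∀ k : ℕ, ∀ s, χ s = 0 → q s ≠ 0 → ∃ l : List S, l.length = k + 1 ∧
        (∀ t ∈ l, χ t = 0) ∧ (l.map q).prod = q s := by
      intro k
      induction k with
      | zero =>
        intro s h1 h2
        exact ⟨[s], rfl, by simpa using h1, by simp⟩
      | succ k ih =>
        intro s h1 h2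
        obtain ⟨t, u, ht, hu', htu⟩ := hc s h1 h2
        obtain ⟨l, hl, hl2, hl3⟩ := ih u hu' (by
          intro h0
          rw [h0, mul_zero] at htu
          exact h2 htu.symm)
        refine ⟨t :: l, by simp [hl], ?_, by simp [hl3, htu]⟩
        intro v hv
        rcases List.mem_cons.1 hv with rfl | hv
        · exact ht
        · exact hl2 v hv
    rcases Nat.eq_zero_or_pos N with h0 | h0
    · have := hN [] (by simp [h0]) (by simp)
      simp at this
    · obtain ⟨l, hl, hl2, hl3⟩ := key (N - 1) s1 hs1 hs1'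
      have := hN l (by omega) hl2
      rw [hl3] at this
      exact hs1' this
  obtain ⟨s0, h0, h0', hmin⟩ := hex
  apply hS
  have e1 : ∀ s, χ s ≠ 1 → χ s = 0 := fun s h => (h01 s).resolve_right h
  let π : S → Nil3 := fun s => if χ s = 1 then Nil3.one else if q s = q s0 then Nil3.a else Nil3.zero
  have hπ1 : ∀ s, χ s = 1 → π s = 1 := fun s h => by
    simp only [π, if_pos h]; rfl
  refine ⟨⟨⟨π, hπ1 1 (map_one χ)⟩, ?_⟩, ?_⟩
  · intro s t
    change π (s * t) = π s * π t
    by_cases hs : χ s = 1
    · rw [hπ1 s hs, one_mul]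
      have e2 : χ (s * t) = χ t := by rw [map_mul, hs, one_mul]
      have e3 : q (s * t) = q t := by rw [map_mul, hu s hs, one_mul]
      simp only [π, e2, e3]
    · by_cases ht : χ t = 1
      · rw [hπ1 t ht, mul_one]
        have e2 : χ (s * t) = χ s := by rw [map_mul, ht, mul_one]
        have e3 : q (s * t) = q s := by rw [map_mul, hu t ht, mul_one]
        simp only [π, e2, e3]
      · have e2 : χ (s * t) ≠ 1 := by
          rw [map_mul, e1 s hs, zero_mul]
          exact zero_ne_one
        have e3 : q (s * t) ≠ q s0 := by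
          rw [map_mul]
          exact hmin s t (e1 s hs) (e1 t ht)
        simp only [π, if_neg e2, if_neg e3, if_neg hs, if_neg ht]
        by_cases h5 : q s = q s0 <;> by_cases h6 : q t = q s0 <;>
          simp only [h5, h6, if_true, if_false] <;> rfl
  · have h1 : χ s0 ≠ 1 := by rw [h0]; exact zero_ne_one
    rintro (_ | _ | _)
    · exact ⟨1, hπ1 1 (map_one χ)⟩
    · refine ⟨s0, ?_⟩
      change π s0 = _
      simp only [π, if_neg h1, if_true]
    · refine ⟨s0 * s0, ?_⟩
      change π (s0 * s0) = _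
      have e2 : χ (s0 * s0) ≠ 1 := by
        rw [map_mul, h0, zero_mul]
        exact zero_ne_one
      have e3 : q (s0 * s0) ≠ q s0 := by
        rw [map_mul]
        exact hmin s0 s0 h0 h0
      simp only [π, if_neg e2, if_neg e3]

/-- the largest two-sided ideal in the kernel of a functional -/
def Kid {A : Type} [Ring A] [Algebra ℂ A] (w : A →ₗ[ℂ] ℂ) : Ideal A where
  carrier := {a | ∀ b c, w (b * a * c) = 0}
  add_mem' := by
    intro a a' h h' b c
    rw [mul_add, add_mul, map_add, h, h', add_zero]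
  zero_mem' := by
    intro b c
    rw [mul_zero, zero_mul, map_zero]
  smul_mem' := by
    intro r a h b c
    rw [smul_eq_mul, ← mul_assoc]
    exact h _ _

theorem mem_Kid {A : Type} [Ring A] [Algebra ℂ A] {w : A →ₗ[ℂ] ℂ} {a : A} :
    a ∈ Kid w ↔ ∀ b c, w (b * a * c) = 0 := Iff.rfl

instance {A : Type} [Ring A] [Algebra ℂ A] (w : A →ₗ[ℂ] ℂ) : (Kid w).IsTwoSided := ⟨by
  intro a r h b c
  rw [mul_assoc, mul_assoc, ← mul_assoc]
  exact h _ _⟩

/-- shorthand for the image of a monoid element -/
noncomputable abbrev of {S : Type} [Monoid S] (s : S) : MonoidAlgebra ℂ S :=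
  MonoidAlgebra.of ℂ S s

/-- structure of the algebra of a tame monoid -/
structure Dat (S : Type) [Monoid S] where
  J : Type
  fin : Fintype J
  ne : Nonempty J
  e : J → MonoidAlgebra ℂ S
  I : Finset J
  χ : J → MonoidAlgebra ℂ S →ₗ[ℂ] ℂ
  idem : ∀ j, e j * e j = e j
  orth : ∀ j j', j ≠ j' → e j * e j' = 0
  χe : ∀ j ∈ I, χ j (e j) = 1
  χne : ∀ j ∈ I, ∀ j', j' ≠ j → χ j (e j') = 0
  χmul : ∀ j ∈ I, ∀ a b, χ j (a * b) = χ j a * χ j b
  χone : ∀ j ∈ I, χ j 1 = 1
  χ01 : ∀ j ∈ I, ∀ s : S, χ j (of s) = 0 ∨ χ j (of s) = 1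
  sep : ∀ (w : MonoidAlgebra ℂ S →ₗ[ℂ] ℂ) (a : MonoidAlgebra ℂ S), (∀ j ∈ I, χ j a = 0) →
    w a ≠ 0 → ∃ j j', j ≠ j' ∧ (∃ x y : S, w (of x * e j * of y) ≠ 0) ∧
      (∃ x y : S, w (of x * e j' * of y) ≠ 0)

theorem exists_dat (S : Type) [Finite S] [Monoid S] (hS : Tame S) : Nonempty (Dat S) := by
  classical
  obtain ⟨n, d, φ, N, hd, hφ, hN⟩ := exists_phi (MonoidAlgebra ℂ S)
  obtain ⟨e, he, hφe⟩ := exists_idem φ hφ hN
  have hχ : ∀ j : (Σ i, Fin (d i)), ∃ χ : MonoidAlgebra ℂ S →ₗ[ℂ] ℂ,
      ∀ a, χ a = φ a j.1 j.2 j.2 := fun j =>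
    ⟨(Matrix.entryLinearMap ℂ ℂ j.2 j.2) ∘ₗ (LinearMap.proj j.1) ∘ₗ φ.toLinearMap,
      fun a => rfl⟩
  choose χ hχ using hχ
  have hmul : ∀ j : (Σ i, Fin (d i)), (∀ a : Fin (d j.1), a = j.2) → ∀ a b,
      χ j (a * b) = χ j a * χ j b := by
    intro j hj a b
    rw [hχ, hχ, hχ, map_mul, Pi.mul_apply, Matrix.mul_apply, Finset.sum_eq_single j.2]
    · intro c _ hc
      exact absurd (hj c) hc
    · simp
  have hone : ∀ j : (Σ i, Fin (d i)), χ j 1 = 1 := by
    intro j
    rw [hχ, map_one, Pi.one_apply, Matrix.one_apply_eq]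
  have hm : ∀ j : (Σ i, Fin (d i)), (∀ a : Fin (d j.1), a = j.2) → ∃ c : S →* ℂ,
      ∀ s, c s = χ j (of s) := fun j hj =>
    ⟨⟨⟨fun s => χ j (MonoidAlgebra.of ℂ S s), by
      rw [map_one]
      exact hone j⟩, fun s t => by
      change χ j (MonoidAlgebra.of ℂ S (s * t)) = _
      rw [map_mul]
      exact hmul j hj _ _⟩, fun _ => rfl⟩
  refine ⟨{ J := Σ i, Fin (d i)
            fin := inferInstance
            ne := ?_
            e := e
            I := univ.filter (fun j => ∀ a : Fin (d j.1), a = j.2)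
            χ := χ
            idem := fun j => he.idem j
            orth := fun j j' h => he.ortho h
            χe := ?_
            χne := ?_
            χmul := fun j hj => hmul j (mem_filter.1 hj).2
            χone := fun j _ => hone j
            χ01 := ?_
            sep := ?_ }⟩
  · by_contra hc
    rw [not_nonempty_iff] at hc
    have h1 := he.complete
    rw [Fintype.sum_empty] at h1
    exact zero_ne_one h1
  · intro j hj
    rw [hχ, hφe]
    simp [dU]
  · intro j hj j' hne
    rw [hχ, hφe]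
    unfold dU
    by_cases h1 : j'.1 = j.1
    · obtain ⟨i, a⟩ := j
      obtain ⟨i', a'⟩ := j'
      change i' = i at h1
      subst h1
      have := (mem_filter.1 hj).2 a'
      change a' = a at this
      subst this
      exact absurd rfl hne
    · rw [Pi.single_eq_of_ne (Ne.symm h1)]
      rfl
  · intro j hj s
    obtain ⟨c, hc⟩ := hm j (mem_filter.1 hj).2
    rw [← hc]
    exact hS.1 c s
  · intro w a ha hwa
    by_contra hcon
    push Not at hcon
    have hker : ∀ j, (∀ x y : S, w (of x * e j * of y) = 0) → e j ∈ Kid w := by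
      intro j hj b c
      induction b using MonoidAlgebra.induction_on with
      | of x =>
        induction c using MonoidAlgebra.induction_on with
        | of y => exact hj x y
        | add c c' h h' => rw [mul_add, map_add, h, h', add_zero]
        | smul r c h => rw [mul_smul_comm, map_smul, h, smul_zero]
      | add b b' h h' => rw [add_mul, add_mul, map_add, h, h', add_zero]
      | smul r b h => rw [smul_mul_assoc, smul_mul_assoc, map_smul, h, smul_zero]
    have h1K : (1 : MonoidAlgebra ℂ S) ∉ Kid w := by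
      intro h
      have := h 1 a
      rw [one_mul, one_mul] at this
      exact hwa this
    have hex : ∃ j0, ∃ x y : S, w (of x * e j0 * of y) ≠ 0 := by
      by_contra hc
      push Not at hc
      apply h1K
      rw [← he.complete]
      exact Ideal.sum_mem _ fun j _ => hker j (hc j)
    obtain ⟨j0, x0, y0, hj0⟩ := hex
    have hq : ∀ j, j ≠ j0 → (Ideal.Quotient.mk (Kid w)) (e j) = 0 := by
      intro j hj
      rw [Ideal.Quotient.eq_zero_iff_mem]
      refine hker j ?_
      by_contra hc
      push Not at hc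
      obtain ⟨x, y, hxy⟩ := hc
      exact hj0 (hcon j j0 hj ⟨x, y, hxy⟩ x0 y0)
    have hnt : Nontrivial (MonoidAlgebra ℂ S ⧸ Kid w) := by
      refine ⟨⟨1, 0, fun h => h1K ?_⟩⟩
      rw [← map_one (Ideal.Quotient.mk (Kid w))] at h
      exact Ideal.Quotient.eq_zero_iff_mem.1 h
    have hblock := block_one (q := Ideal.Quotient.mk (Kid w)) hφ hN he hφe hq
    have hj0I : j0 ∈ univ.filter (fun j : (Σ i, Fin (d i)) => ∀ a : Fin (d j.1), a = j.2) :=
      mem_filter.2 ⟨mem_univ _, hblock⟩
    obtain ⟨c, hc⟩ := hm j0 hblock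
    have hunit : ∀ s, c s = 1 → (Ideal.Quotient.mk (Kid w)) (of s) = 1 := by
      intro s hs
      obtain ⟨a1, b1, hab, hpow⟩ := Set.Finite.exists_lt_map_eq_of_forall_mem
        (t := (Set.univ : Set S)) (f := fun k : ℕ => s ^ k) (fun _ => Set.mem_univ _)
        Set.finite_univ
      have hz := prod_zero (q := Ideal.Quotient.mk (Kid w)) hN he hφe hq hblock
        (List.replicate N (of s - 1)) (by simp) (by
          intro b hb
          rw [List.eq_of_mem_replicate hb, ← hχ, map_sub, ← hc, hs, hone, sub_self])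
      rw [List.map_replicate, List.prod_replicate, map_sub, map_one] at hz
      have hm0 : 0 < b1 - a1 := by omega
      refine unip (N := N) (m := b1 - a1) (k := a1) hm0 ?_ hz ?_
      · have h5 : IsUnit ((b1 - a1 : ℕ) : MonoidAlgebra ℂ S) := by
          have h6 : IsUnit (((b1 - a1 : ℕ) : ℂ)) :=
            isUnit_iff_ne_zero.2 (by exact_mod_cast hm0.ne')
          have h7 := h6.map (algebraMap ℂ (MonoidAlgebra ℂ S))
          rwa [map_natCast] at h7
        have h8 := h5.map (Ideal.Quotient.mk (Kid w))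
        rwa [map_natCast] at h8
      · rw [← map_pow, ← map_pow, ← map_pow, ← map_pow]
        have : a1 + (b1 - a1) = b1 := by omega
        rw [this]
        have hp : s ^ a1 = s ^ b1 := hpow
        rw [hp]
    have hnil := nil_part (q := MonoidHom.comp
      ((Ideal.Quotient.mk (Kid w) : MonoidAlgebra ℂ S →+* MonoidAlgebra ℂ S ⧸ Kid w) :
        MonoidAlgebra ℂ S →* MonoidAlgebra ℂ S ⧸ Kid w) (MonoidAlgebra.of ℂ S)) c (hS.1 c) hunit (N := N) (by
        intro l hl h
        have hz := prod_zero (q := Ideal.Quotient.mk (Kid w)) hN he hφe hq hblock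
          (l.map (of : S → MonoidAlgebra ℂ S)) (by simp [hl]) (by
            intro b hb
            rw [List.mem_map] at hb
            obtain ⟨s, hs, rfl⟩ := hb
            rw [← hχ, ← hc, h s hs])
        rw [List.map_map] at hz
        exact hz) hS.2
    have hfin : ∀ s : S, w (of s) = χ j0 (of s) * w 1 := by
      intro s
      rcases hS.1 c s with h | h
      · have h1 := hnil s h
        have h2 : of s ∈ Kid w := Ideal.Quotient.eq_zero_iff_mem.1 h1
        have h3 := h2 1 1
        rw [one_mul, mul_one] at h3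
        rw [h3, ← hc, h, zero_mul]
      · have h1 := hunit s h
        have h2 : of s - 1 ∈ Kid w := by
          rw [← Ideal.Quotient.eq_zero_iff_mem, map_sub, h1, map_one, sub_self]
        have h3 := h2 1 1
        rw [one_mul, mul_one, map_sub] at h3
        rw [← hc, h, one_mul]
        exact sub_eq_zero.1 h3
    have hall : ∀ b : MonoidAlgebra ℂ S, w b = χ j0 b * w 1 := by
      intro b
      induction b using MonoidAlgebra.induction_on with
      | of x => exact hfin x
      | add b b' h h' => rw [map_add, map_add, h, h', add_mul]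
      | smul r b h => rw [map_smul, map_smul, h, smul_eq_mul, smul_eq_mul, mul_assoc]
    apply hwa
    rw [hall a, ha j0 hj0I, zero_mul]

end Pool.Agent.N609.Mon
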