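import Pool.Agent.N609.Mon.Main
import Pool.Agent.N609.Mon.Conv
import Pool.Agent.N609.AndRank.Graph

/-!
# Graphs given by the product in finite monoids
-/

set_option autoImplicit false
set_option linter.unusedSectionVars false
set_option linter.unusedVariables false

namespace Pool.Agent.N609.Mon

open Finset Pool.Agent.TH744.LR Pool.Agent.N609.AndRank

open Classical in
/-- the real rank of the adjacency matrix -/
noncomputable def grk {V : Type} [Fintype V] (G : SimpleGraph V) : ℕ :=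
  (Matrix.of (fun v w : V => if G.Adj v w then (1 : ℝ) else 0)).rank

/-- the adjacency of `v` and `w` is a function of the product of `ρ v` and `σ w` -/
def IsProductGraph {J : Type} (S : J → Type) [∀ j, Monoid (S j)] {V : Type}
    (G : SimpleGraph V) : Prop :=
  ∃ (ρ σ : V → ∀ j, S j) (f : (∀ j, S j) → Bool), Function.Surjective ρ ∧
    Function.Surjective σ ∧ ∀ v w, G.Adj v w ↔ f (ρ v * σ w) = true

/-- numerical estimate -/
theorem num_bound (K r : ℕ) :
    ((5472 * ((2 * Nat.clog 2 K + 3) * (Nat.log 2 r + 1)) ^ 11 : ℕ) : ℝ) ≤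
      3 * 10 ^ 11 * ((Real.logb 2 K + 1) * (Real.logb 2 r + 1)) ^ 11 := by
  have hl : (Nat.log 2 r : ℝ) ≤ Real.logb 2 (r : ℝ) := by
    exact_mod_cast Real.natLog_le_logb r 2
  have hK0 : 0 ≤ Real.logb 2 (K : ℝ) := by
    rcases Nat.eq_zero_or_pos K with h | h
    · rw [h]
      simp
    · exact Real.logb_nonneg (by norm_num) (by exact_mod_cast h)
  have hk : (Nat.clog 2 K : ℝ) ≤ Real.logb 2 (K : ℝ) + 1 := by
    by_cases h2 : 1 < K
    · have h3 := Nat.pow_pred_clog_lt_self (b := 2) (by norm_num) h2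
      have h4 : (((Nat.clog 2 K).pred : ℕ) : ℝ) ≤ Real.logb 2 (K : ℝ) := by
        rw [Real.le_logb_iff_rpow_le (by norm_num) (by exact_mod_cast (by omega : 0 < K)),
          Real.rpow_natCast]
        exact_mod_cast h3.le
      have h5 : (Nat.clog 2 K : ℝ) ≤ (((Nat.clog 2 K).pred : ℕ) : ℝ) + 1 := by
        exact_mod_cast (by
          rw [Nat.pred_eq_sub_one]
          omega : Nat.clog 2 K ≤ (Nat.clog 2 K).pred + 1)
      linarith
    · rw [Nat.clog_of_right_le_one (by omega)]
      push_cast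
      linarith
  push_cast
  have h6 : (2 * (Nat.clog 2 K : ℝ) + 3) * ((Nat.log 2 r : ℝ) + 1) ≤
      5 * ((Real.logb 2 K + 1) * (Real.logb 2 (r : ℝ) + 1)) := by
    have h7 : 2 * (Nat.clog 2 K : ℝ) + 3 ≤ 5 * (Real.logb 2 K + 1) := by linarith
    calc (2 * (Nat.clog 2 K : ℝ) + 3) * ((Nat.log 2 r : ℝ) + 1)
        ≤ (5 * (Real.logb 2 K + 1)) * (Real.logb 2 (r : ℝ) + 1) := by gcongr
      _ = 5 * ((Real.logb 2 K + 1) * (Real.logb 2 (r : ℝ) + 1)) := by ring
  have h8 : 0 ≤ (Real.logb 2 (K : ℝ) + 1) * (Real.logb 2 (r : ℝ) + 1) := by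
    have : (0 : ℝ) ≤ Nat.log 2 r := Nat.cast_nonneg _
    exact mul_nonneg (by linarith) (by linarith)
  calc (5472 : ℝ) * ((2 * (Nat.clog 2 K : ℝ) + 3) * ((Nat.log 2 r : ℝ) + 1)) ^ 11
      ≤ 5472 * (5 * ((Real.logb 2 K + 1) * (Real.logb 2 (r : ℝ) + 1))) ^ 11 := by gcongr
    _ = 5472 * 5 ^ 11 * ((Real.logb 2 K + 1) * (Real.logb 2 (r : ℝ) + 1)) ^ 11 := by
        rw [mul_pow]
        ring
    _ ≤ 3 * 10 ^ 11 * ((Real.logb 2 K + 1) * (Real.logb 2 (r : ℝ) + 1)) ^ 11 := by
        refine mul_le_mul_of_nonneg_right (by norm_num) (pow_nonneg h8 _)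

/-- **Chromatic number of product graphs over tame monoids, in pieces.** -/
theorem graph_main {V : Type} [Fintype V] (G : SimpleGraph V) (t K : ℕ)
    (A : Fin t → Type) [∀ i, Fintype (A i)] (φ : ∀ i, A i → V) (hφ : ∀ v, ∃ i a, φ i a = v)
    (J : Fin t → Type) [∀ i, Fintype (J i)] [∀ i, DecidableEq (J i)]
    (S : ∀ i, J i → Type) [∀ i j, Fintype (S i j)] [∀ i j, Monoid (S i j)]
    (hT : ∀ i j, Tame (S i j)) (hK : ∀ i j, Fintype.card (S i j) ≤ K)
    (ρ σ : ∀ i, A i → ∀ j, S i j) (hρ : ∀ i, Function.Surjective (ρ i))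
    (hσ : ∀ i, Function.Surjective (σ i)) (f : ∀ i, (∀ j, S i j) → Bool)
    (hf : ∀ i a b, G.Adj (φ i a) (φ i b) ↔ f i (ρ i a * σ i b) = true) :
    Real.logb 2 (G.chromaticNumber.toNat : ℝ) ≤ Real.logb 2 t +
      3 * 10 ^ 11 * ((Real.logb 2 K + 1) * (Real.logb 2 (grk G) + 1)) ^ 11 := by
  classical
  have hprot : ∀ i, Prot (fun a b : A i => f i (ρ i a * σ i b))
      (5472 * ((2 * Nat.clog 2 K + 3) * (Nat.log 2 (grk G) + 1)) ^ 11) := by
    intro i
    have h1 := tame_main (hT i) (f i) (k := Nat.clog 2 K)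
      (fun j => (hK i j).trans (Nat.le_pow_clog (by norm_num) K))
    have h2 : (Matrix.of (fun x y : ∀ j, S i j => if f i (x * y) then (1 : ℝ) else 0)).rank ≤
        grk G := by
      have e : Matrix.of (fun x y : ∀ j, S i j => if f i (x * y) then (1 : ℝ) else 0) =
          (Matrix.of (fun v w : V => if G.Adj v w then (1 : ℝ) else 0)).submatrix
            (fun x => φ i (Function.surjInv (hρ i) x))
            (fun y => φ i (Function.surjInv (hσ i) y)) := by
        ext x y
        rw [Matrix.submatrix_apply, Matrix.of_apply, Matrix.of_apply]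
        have h3 := hf i (Function.surjInv (hρ i) x) (Function.surjInv (hσ i) y)
        rw [Function.surjInv_eq (hρ i), Function.surjInv_eq (hσ i)] at h3
        by_cases h4 : f i (x * y) = true
        · rw [if_pos h4, if_pos (h3.2 h4)]
        · rw [if_neg h4, if_neg (fun h => h4 (h3.1 h))]
      rw [e]
      exact Matrix.rank_submatrix_le _ _ _
    have h3 := (h1.lift (X' := A i) (Y' := A i) (ρ i) (σ i))
    refine h3.mono (Nat.mul_le_mul_left _ (Nat.pow_le_pow_left (Nat.mul_le_mul_left _ ?_) _))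
    exact Nat.add_le_add_right (Nat.log_mono_right h2) 1
  have h1 := logb_chi_le G t _ (colorable_of_prot G t _ A φ hφ _ hf hprot)
  exact h1.trans (add_le_add le_rfl (num_bound K (grk G)))

section nil

variable {S : Type} [Fintype S] [Monoid S] (π : S →* Nil3) {V : Type} [Fintype V] [DecidableEq V]

/-- exchange of the two copies -/
def sw {T : Type} (z : V ⊕ V → T) : V ⊕ V → T := fun i => z i.swap

theorem sw_sw {T : Type} (z : V ⊕ V → T) : sw (sw z) = z := by
  funext i
  simp [sw]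

theorem PT_sw {T : Finset (V ⊕ V)} {z : V ⊕ V → S} (h : PT π T z) :
    PT π (T.image Sum.swap) (sw z) := by
  intro i
  have h1 := h i.swap
  unfold sw
  rw [h1]
  have : i.swap ∈ T ↔ i ∈ T.image Sum.swap := by
    rw [mem_image]
    constructor
    · intro h2
      exact ⟨i.swap, h2, Sum.swap_swap i⟩
    · rintro ⟨j, hj, rfl⟩
      rw [Sum.swap_swap]
      exact hj
  simp only [this]

open Classical in
/-- **Every graph is an induced subgraph of a product graph over a monoid with quotient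
`{1, a, 0}`, of at most about twice the rank.** -/
theorem graph_nil (hπ : Function.Surjective π) (G : SimpleGraph V) :
    ∃ G' : SimpleGraph (V ⊕ V → S), IsProductGraph (fun _ : V ⊕ V => S) G' ∧
      Nonempty (G ↪g G') ∧ grk G' ≤ 2 * grk G + 2 := by
  obtain ⟨a0, ha0⟩ := hπ Nil3.a
  have hone : π 1 = Nil3.one := map_one π
  have hα : ∀ x : V, PT (X := V) (Y := V) π {Sum.inl x}
      (fun i => if i = Sum.inl x then a0 else 1) := by
    intro x i
    beta_reduce
    by_cases hi : i = Sum.inl x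
    · simp [hi, ha0]
    · simp [hi, hone]
  have hne1 : ∀ (x : V) (y : V), ({Sum.inl x} : Finset (V ⊕ V)) ≠ {Sum.inr y} := by
    intro x y h
    have : (Sum.inl x : V ⊕ V) ∈ ({Sum.inr y} : Finset (V ⊕ V)) := h ▸ mem_singleton_self _
    simp at this
  have hne2 : ∀ (x x' : V) (y : V),
      ({Sum.inl x} : Finset (V ⊕ V)) ≠ {Sum.inl x', Sum.inr y} := by
    intro x x' y h
    have : (Sum.inr y : V ⊕ V) ∈ ({Sum.inl x} : Finset (V ⊕ V)) := by rw [h]; simp
    simp at this
  have hne3 : ∀ (x : V) (y y' : V),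
      ({Sum.inr y} : Finset (V ⊕ V)) ≠ {Sum.inl x, Sum.inr y'} := by
    intro x y y' h
    have : (Sum.inl x : V ⊕ V) ∈ ({Sum.inr y} : Finset (V ⊕ V)) := by rw [h]; simp
    simp at this
  have hinj : ∀ (x x' : V) (y y' : V),
      ({Sum.inl x, Sum.inr y} : Finset (V ⊕ V)) = {Sum.inl x', Sum.inr y'} →
      x = x' ∧ y = y' := by
    intro x x' y y' h
    have h1 : (Sum.inl x : V ⊕ V) ∈ ({Sum.inl x', Sum.inr y'} : Finset (V ⊕ V)) := by
      rw [← h]; simp
    have h2 : (Sum.inr y : V ⊕ V) ∈ ({Sum.inl x', Sum.inr y'} : Finset (V ⊕ V)) := by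
      rw [← h]; simp
    simpa using And.intro h1 h2
  let f : (V ⊕ V → S) → Bool := fun z =>
    decide (∃ x y, G.Adj x y ∧ PT π {Sum.inl x, Sum.inr y} z)
  let A : (V ⊕ V → S) → (V ⊕ V → S) → Prop := fun z w =>
    ∃ x y, G.Adj x y ∧ PT π {Sum.inl x} z ∧ PT π {Sum.inr y} w
  let C : (V ⊕ V → S) → (V ⊕ V → S) → Prop := fun z w =>
    (∃ x y, G.Adj x y ∧ PT π {Sum.inl x, Sum.inr y} z) ∧ PT π ∅ w
  have hf : ∀ z w, f (z * w) = true ↔ A z w ∨ A w z ∨ C z w ∨ C w z := by
    intro z w
    simp only [f, decide_eq_true_iff, PT_mul, A, C]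
    constructor
    · rintro ⟨x, y, hG, h | h | h | h⟩
      · exact Or.inl ⟨x, y, hG, h.1, h.2⟩
      · exact Or.inr (Or.inl ⟨x, y, hG, h.1, h.2⟩)
      · exact Or.inr (Or.inr (Or.inl ⟨⟨x, y, hG, h.1⟩, h.2⟩))
      · exact Or.inr (Or.inr (Or.inr ⟨⟨x, y, hG, h.2⟩, h.1⟩))
    · rintro (⟨x, y, hG, h1, h2⟩ | ⟨x, y, hG, h1, h2⟩ | ⟨⟨x, y, hG, h1⟩, h2⟩ |
        ⟨⟨x, y, hG, h1⟩, h2⟩)
      · exact ⟨x, y, hG, Or.inl ⟨h1, h2⟩⟩
      · exact ⟨x, y, hG, Or.inr (Or.inl ⟨h1, h2⟩)⟩
      · exact ⟨x, y, hG, Or.inr (Or.inr (Or.inl ⟨h1, h2⟩))⟩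
      · exact ⟨x, y, hG, Or.inr (Or.inr (Or.inr ⟨h2, h1⟩))⟩
  have eA : ∀ z w, A z (sw w) → A w (sw z) := by
    rintro z w ⟨x, y, hG, h1, h2⟩
    have h3 := PT_sw π h1
    have h4 := PT_sw π h2
    rw [sw_sw] at h4
    simp only [image_singleton, Sum.swap_inl, Sum.swap_inr] at h3 h4
    exact ⟨y, x, hG.symm, h4, h3⟩
  have eA' : ∀ z w, A (sw w) z → A (sw z) w := by
    rintro z w ⟨x, y, hG, h1, h2⟩
    have h3 := PT_sw π h1
    have h4 := PT_sw π h2
    rw [sw_sw] at h3
    simp only [image_singleton, Sum.swap_inl, Sum.swap_inr] at h3 h4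
    exact ⟨y, x, hG.symm, h4, h3⟩
  have eC : ∀ z w, C z (sw w) → C (sw z) w := by
    rintro z w ⟨⟨x, y, hG, h1⟩, h2⟩
    have h3 := PT_sw π h1
    have h4 := PT_sw π h2
    rw [sw_sw] at h4
    simp only [image_insert, image_singleton, Sum.swap_inl, Sum.swap_inr, image_empty] at h3 h4
    rw [pair_comm] at h3
    exact ⟨⟨y, x, hG.symm, h3⟩, h4⟩
  have eC' : ∀ z w, C (sw w) z → C w (sw z) := by
    rintro z w ⟨⟨x, y, hG, h1⟩, h2⟩
    have h3 := PT_sw π h1
    have h4 := PT_sw π h2
    rw [sw_sw] at h3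
    simp only [image_insert, image_singleton, Sum.swap_inl, Sum.swap_inr, image_empty] at h3 h4
    rw [pair_comm] at h3
    exact ⟨⟨y, x, hG.symm, h3⟩, h4⟩
  let G' : SimpleGraph (V ⊕ V → S) :=
    { Adj := fun z w => f (z * sw w) = true
      symm := ⟨by
        intro z w h
        rw [hf] at h ⊢
        rcases h with h | h | h | h
        · exact Or.inl (eA _ _ h)
        · exact Or.inr (Or.inl (eA' _ _ h))
        · exact Or.inr (Or.inr (Or.inr (eC _ _ h)))
        · exact Or.inr (Or.inr (Or.inl (eC' _ _ h)))⟩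
      loopless := ⟨by
        intro z h
        rw [hf] at h
        rcases h with ⟨x, y, hG, h1, h2⟩ | ⟨x, y, hG, h1, h2⟩ | ⟨⟨x, y, hG, h1⟩, h2⟩ |
          ⟨⟨x, y, hG, h1⟩, h2⟩
        · have h3 := PT_sw π h1
          have h4 := h3.unique π h2
          simp only [image_singleton, Sum.swap_inl, singleton_inj, Sum.inr.injEq] at h4
          exact hG.ne h4
        · have h3 := PT_sw π h2
          have h4 := h3.unique π h1
          simp only [image_singleton, Sum.swap_inr, singleton_inj, Sum.inl.injEq] at h4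
          exact hG.ne h4.symm
        · have h3 := PT_sw π h1
          have h4 := h3.unique π h2
          simp at h4
        · have h3 := PT_sw π h2
          have h4 := h3.unique π h1
          simp only [image_empty] at h4
          exact absurd h4.symm (insert_ne_empty _ _)⟩ }
  have hsurj : Function.Surjective (sw : (V ⊕ V → S) → V ⊕ V → S) := fun z => ⟨sw z, sw_sw z⟩
  refine ⟨G', ⟨id, sw, f, Function.surjective_id, hsurj, fun v w => Iff.rfl⟩, ⟨⟨⟨fun x i =>
    if i = Sum.inl x then a0 else 1, ?_⟩, ?_⟩⟩, ?_⟩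
  · intro x y hxy
    have h1 := hα x
    have h2 := hα y
    have h3 : (fun i : V ⊕ V => if i = Sum.inl x then a0 else (1 : S)) =
      fun i => if i = Sum.inl y then a0 else 1 := hxy
    rw [h3] at h1
    have h4 := h1.unique π h2
    simpa using h4
  · intro x y
    change f (_ * sw _) = true ↔ _
    have h1 := PT_sw π (hα y)
    simp only [image_singleton, Sum.swap_inl] at h1
    rw [hf]
    constructor
    · rintro (⟨x', y', hG, h2, h3⟩ | ⟨x', y', hG, h2, h3⟩ | ⟨⟨x', y', hG, h2⟩, h3⟩ |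
        ⟨⟨x', y', hG, h2⟩, h3⟩)
      · have h4 := h2.unique π (hα x)
        have h5 := h3.unique π h1
        simp only [singleton_inj, Sum.inl.injEq, Sum.inr.injEq] at h4 h5
        rw [← h4, ← h5]
        exact hG
      · exact absurd (h2.unique π h1) (hne1 _ _)
      · exact absurd ((hα x).unique π h2) (hne2 _ _ _)
      · exact absurd (h1.unique π h2) (hne3 _ _ _)
    · intro hG
      exact Or.inl ⟨x, y, hG, hα x, h1⟩
  · -- the rank
    have e1 : ∀ z w, A z w → ¬ A w z := by
      rintro z w ⟨x, y, _, h1, _⟩ ⟨x', y', _, _, h2⟩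
      exact hne1 _ _ (h1.unique π h2)
    have e2 : ∀ z w, A z w → ¬ C z w := by
      rintro z w ⟨x, y, _, h1, _⟩ ⟨⟨x', y', _, h2⟩, _⟩
      exact hne2 _ _ _ (h1.unique π h2)
    have e3 : ∀ z w, A z w → ¬ C w z := by
      rintro z w ⟨x, y, _, h1, _⟩ ⟨_, h2⟩
      exact singleton_ne_empty _ (h1.unique π h2)
    have e4 : ∀ z w, A w z → ¬ C z w := by
      rintro z w ⟨x, y, _, _, h1⟩ ⟨⟨x', y', _, h2⟩, _⟩
      exact hne3 _ _ _ (h1.unique π h2)
    have e5 : ∀ z w, A w z → ¬ C w z := by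
      rintro z w ⟨x, y, _, _, h1⟩ ⟨_, h2⟩
      exact singleton_ne_empty _ (h1.unique π h2)
    have e6 : ∀ z w, C z w → ¬ C w z := by
      rintro z w ⟨⟨x, y, _, h1⟩, _⟩ ⟨_, h2⟩
      exact insert_ne_empty _ _ (h1.unique π h2)
    let M1 : Matrix (V ⊕ V → S) (V ⊕ V → S) ℝ := Matrix.of fun z w => if A z w then 1 else 0
    let M3 : Matrix (V ⊕ V → S) (V ⊕ V → S) ℝ := Matrix.of fun z w => if C z w then 1 else 0
    have hF : Matrix.of (fun z w : V ⊕ V → S => if G'.Adj z w then (1 : ℝ) else 0) =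
        ((M1 + M1.transpose) + (M3 + M3.transpose)).submatrix id sw := by
      ext z w
      simp only [Matrix.submatrix_apply, Matrix.add_apply, Matrix.transpose_apply,
        Matrix.of_apply, M1, M3, id]
      have hadj : G'.Adj z w ↔ f (z * sw w) = true := Iff.rfl
      rw [hf] at hadj
      simp only [hadj]
      by_cases hA : A z (sw w)
      · simp [hA, e1 _ _ hA, e2 _ _ hA, e3 _ _ hA]
      · by_cases hB : A (sw w) z
        · simp [hA, hB, e4 _ _ hB, e5 _ _ hB]
        · by_cases hC : C z (sw w)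
          · simp [hA, hB, hC, e6 _ _ hC]
          · simp [hA, hB, hC]
    have hM1 : M1.rank ≤ (Matrix.of (fun x y => if G.Adj x y then (1 : ℝ) else 0)).rank := by
      let U : Matrix (V ⊕ V → S) V ℝ := Matrix.of fun z x => if PT π {Sum.inl x} z then 1 else 0
      let W : Matrix V (V ⊕ V → S) ℝ := Matrix.of fun y w => if PT π {Sum.inr y} w then 1 else 0
      have h1 : M1 = U * (Matrix.of (fun x y => if G.Adj x y then (1 : ℝ) else 0)) * W := by
        ext z w
        rw [Matrix.mul_apply]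
        simp only [Matrix.mul_apply, Matrix.of_apply, M1, U, W]
        by_cases hz : ∃ x, PT π {Sum.inl x} z
        · obtain ⟨x, hx⟩ := hz
          by_cases hw : ∃ y, PT π {Sum.inr y} w
          · obtain ⟨y, hy⟩ := hw
            have hxu : ∀ x', PT π {Sum.inl x'} z ↔ x' = x := by
              intro x'
              constructor
              · intro h
                have := h.unique π hx
                simpa using this
              · rintro rfl
                exact hx
            have hyu : ∀ y', PT π {Sum.inr y'} w ↔ y' = y := by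
              intro y'
              constructor
              · intro h
                have := h.unique π hy
                simpa using this
              · rintro rfl
                exact hy
            simp only [A, hxu, hyu]
            rw [sum_eq_single y]
            · rw [sum_eq_single x]
              · by_cases hG : G.Adj x y
                · rw [if_pos ⟨x, y, hG, rfl, rfl⟩]
                  simp [hG]
                · rw [if_neg]
                  · simp [hG]
                  · rintro ⟨x', y', h3, rfl, rfl⟩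
                    exact hG h3
              · intro x' _ hx'
                rw [if_neg hx', zero_mul]
              · simp
            · intro y' _ hy'
              rw [if_neg hy', mul_zero]
            · simp
          · push Not at hw
            rw [if_neg]
            · simp [hw]
            · rintro ⟨x', y', _, _, h3⟩
              exact hw y' h3
        · push Not at hz
          rw [if_neg]
          · simp [hz]
          · rintro ⟨x', y', _, h3, _⟩
            exact hz x' h3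
      rw [h1]
      exact rank_ABC_le _ _ _
    have hM3 : M3.rank ≤ 1 := by
      have h1 : M3 = Matrix.vecMulVec
          (fun z => if (∃ x y, G.Adj x y ∧ PT π {Sum.inl x, Sum.inr y} z) then (1 : ℝ) else 0)
          (fun w => if PT π ∅ w then (1 : ℝ) else 0) := by
        ext z w
        simp only [Matrix.vecMulVec_apply, Matrix.of_apply, M3, C]
        by_cases h2 : (∃ x y, G.Adj x y ∧ PT π {Sum.inl x, Sum.inr y} z) <;>
          by_cases h3 : PT π ∅ w <;> simp only [h2, h3, and_self, and_true, and_false,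
            if_true, if_false, mul_one, mul_zero]
      rw [h1]
      exact Matrix.rank_vecMulVec_le _ _
    have h0 : grk G' ≤ ((M1 + M1.transpose) + (M3 + M3.transpose)).rank := by
      have h5 : grk G' =
          (Matrix.of (fun z w : V ⊕ V → S => if G'.Adj z w then (1 : ℝ) else 0)).rank := by
        unfold grk
        congr!
      rw [h5, hF]
      exact Matrix.rank_submatrix_le _ _ _
    refine h0.trans ?_
    have h1 := rank_add_le (M1 + M1.transpose) (M3 + M3.transpose)
    have h2 := rank_add_le M1 M1.transpose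
    have h3 := rank_add_le M3 M3.transpose
    rw [Matrix.rank_transpose] at h2 h3
    have h4 : (Matrix.of (fun x y => if G.Adj x y then (1 : ℝ) else 0)).rank = grk G := rfl
    rw [h4] at hM1
    omega

end nil

/-- the structure of a character with values other than `0, 1` -/
theorem char_struct {S : Type} [Fintype S] [Monoid S] (χ : S →* ℂ) {s1 : S} (h0 : χ s1 ≠ 0)
    (h1 : χ s1 ≠ 1) : ∃ (p : ℕ) (_ : Fact p.Prime) (Ok : S → Prop) (L : S → ZMod p),
      (∀ s t, Ok (s * t) ↔ Ok s ∧ Ok t) ∧ (∀ s t, Ok s → Ok t → L (s * t) = L s + L t) ∧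
      ∀ u, ∃ s, Ok s ∧ L s = u := by
  classical
  have hb : ∀ s : S, ∃ b : ℕ, 0 < b ∧ (χ s ≠ 0 → χ s ^ b = 1) := by
    intro s
    obtain ⟨a1, b1, hab, hpow⟩ := Set.Finite.exists_lt_map_eq_of_forall_mem
      (t := (Set.univ : Set S)) (f := fun k : ℕ => s ^ k) (fun _ => Set.mem_univ _)
      Set.finite_univ
    refine ⟨b1 - a1, by omega, fun hs => ?_⟩
    have h2 : χ s ^ a1 = χ s ^ b1 := by
      rw [← map_pow, ← map_pow]
      exact congrArg χ hpow
    have h3 : χ s ^ a1 * χ s ^ (b1 - a1) = χ s ^ a1 * 1 := by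
      rw [← pow_add, mul_one, h2]
      congr 1
      omega
    exact mul_left_cancel₀ (pow_ne_zero _ hs) h3
  choose b hb0 hb1 using hb
  have hex : ∃ m : ℕ, 0 < m ∧ ∀ s, χ s ≠ 0 → χ s ^ m = 1 := by
    refine ⟨∏ s, b s, prod_pos fun s _ => hb0 s, fun s hs => ?_⟩
    obtain ⟨c, hc⟩ := dvd_prod_of_mem b (mem_univ s)
    rw [hc, pow_mul, hb1 s hs, one_pow]
  set m := Nat.find hex with hm
  have hm1 := Nat.find_spec hex
  rw [← hm] at hm1
  have hm2 : m ≠ 1 := by
    intro h
    have := hm1.2 s1 h0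
    rw [h, pow_one] at this
    exact h1 this
  set p := m.minFac with hp
  have hpp : p.Prime := Nat.minFac_prime hm2
  obtain ⟨m', hm'⟩ : p ∣ m := Nat.minFac_dvd m
  have hm'0 : 0 < m' := by
    rcases Nat.eq_zero_or_pos m' with h | h
    · rw [h, mul_zero] at hm'
      omega
    · exact h
  have hlt : m' < m := by
    rw [hm']
    have := hpp.two_le
    nlinarith
  have hnot := Nat.find_min hex (hm ▸ hlt)
  push Not at hnot
  obtain ⟨s2, hs2, hs2'⟩ := hnot hm'0
  have : Fact p.Prime := ⟨hpp⟩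
  let ψ : S →* ℂ := χ ^ m'
  have hψ : ∀ s, ψ s = χ s ^ m' := fun s => rfl
  have hψp : ∀ s, ψ s ≠ 0 → ψ s ^ p = 1 := by
    intro s hs
    rw [hψ, ← pow_mul, mul_comm, ← hm']
    refine hm1.2 s fun h => hs ?_
    rw [hψ, h, zero_pow hm'0.ne']
  set ω := ψ s2 with hω
  have hω0 : ω ≠ 0 := by
    rw [hω, hψ]
    exact pow_ne_zero _ hs2
  have hω1 : ω ≠ 1 := hs2'
  have hord : orderOf ω = p := orderOf_eq_prime (hψp s2 hω0) hω1
  have hprim : IsPrimitiveRoot ω p := hord ▸ IsPrimitiveRoot.orderOf ω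
  have hlg : ∀ s, ∃ i : ℕ, ψ s ≠ 0 → ω ^ i = ψ s := by
    intro s
    by_cases hs : ψ s = 0
    · exact ⟨0, fun h => absurd hs h⟩
    · obtain ⟨i, _, hi⟩ := hprim.eq_pow_of_pow_eq_one (hψp s hs)
      exact ⟨i, fun _ => hi⟩
  choose lg hlg using hlg
  have hmod : ∀ i j : ℕ, ω ^ i = ω ^ j → i ≡ j [MOD p] := by
    intro i j hij
    rw [← pow_mod_orderOf ω i, ← pow_mod_orderOf ω j, hord] at hij
    exact hprim.pow_inj (Nat.mod_lt _ hpp.pos) (Nat.mod_lt _ hpp.pos) hij
  refine ⟨p, this, fun s => ψ s ≠ 0, fun s => (lg s : ZMod p), ?_, ?_, ?_⟩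
  · intro s t
    beta_reduce
    rw [map_mul, mul_ne_zero_iff]
  · intro s t hs ht
    beta_reduce
    have hst : ψ (s * t) ≠ 0 := by
      rw [map_mul]
      exact mul_ne_zero hs ht
    have h2 : ω ^ lg (s * t) = ω ^ (lg s + lg t) := by
      rw [hlg _ hst, pow_add, hlg _ hs, hlg _ ht, map_mul]
    rw [← Nat.cast_add]
    exact (ZMod.natCast_eq_natCast_iff _ _ _).2 (hmod _ _ h2)
  · intro u
    refine ⟨s2 ^ u.val, ?_, ?_⟩
    · beta_reduce
      rw [map_pow]
      exact pow_ne_zero _ hω0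
    · beta_reduce
      have h2 : ω ^ lg (s2 ^ u.val) = ω ^ u.val := by
        rw [hlg _ (by rw [map_pow]; exact pow_ne_zero _ hω0), map_pow]
      have h3 : ((lg (s2 ^ u.val) : ℕ) : ZMod p) = (u.val : ZMod p) :=
        (ZMod.natCast_eq_natCast_iff _ _ _).2 (hmod _ _ h2)
      rw [h3, ZMod.natCast_zmod_val]

open Classical in
/-- **Every Cayley graph of `(ℤ/p)^n` is an induced subgraph of a product graph over a monoid with
a character which has other values than `0, 1`, of at most the same rank.** -/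
theorem graph_char {S : Type} [Fintype S] [Monoid S] (χ : S →* ℂ) {s1 : S} (h0 : χ s1 ≠ 0)
    (h1 : χ s1 ≠ 1) : ∃ (p : ℕ) (_ : Fact p.Prime), ∀ (n : ℕ) (G : SimpleGraph (Fin n → ZMod p)),
      (∀ x y z, G.Adj (x + z) (y + z) ↔ G.Adj x y) →
      ∃ (V : Type) (_ : Fintype V) (G' : SimpleGraph V), IsProductGraph (fun _ : Fin n => S) G' ∧
        Nonempty (G ↪g G') ∧ grk G' ≤ grk G := by
  obtain ⟨p, hp, Ok, L, hOk, hL, hsur⟩ := char_struct χ h0 h1
  refine ⟨p, hp, fun n G hG => ?_⟩
  choose s hs1 hs2 using hsur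
  let ok : (Fin n → S) → Prop := fun z => ∀ i, Ok (z i)
  let l : (Fin n → S) → Fin n → ZMod p := fun z i => L (z i)
  let a : (Fin n → ZMod p) → Fin n → S := fun x i => s (x i)
  have hok : ∀ z w, ok (z * w) ↔ ok z ∧ ok w := by
    intro z w
    simp only [ok, Pi.mul_apply, hOk]
    exact forall_and
  have hl : ∀ z w, ok z → ok w → l (z * w) = l z + l w := by
    intro z w hz hw
    funext i
    exact hL _ _ (hz i) (hw i)
  have ha1 : ∀ x, ok (a x) := fun x i => hs1 (x i)
  have ha2 : ∀ x, l (a x) = x := fun x => funext fun i => hs2 (x i)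
  let V : Type := {q : (Fin n → S) × (Fin n → S) // (ok q.1 ↔ ok q.2) ∧ (ok q.1 → l q.2 = - l q.1)}
  let f : (Fin n → S) → Bool := fun z => decide (ok z ∧ G.Adj (l z) 0)
  have hf : ∀ v w : V, f (v.1.1 * w.1.2) = true ↔
      ok v.1.1 ∧ ok w.1.1 ∧ G.Adj (l v.1.1) (l w.1.1) := by
    intro v w
    simp only [f, decide_eq_true_iff, hok]
    constructor
    · rintro ⟨⟨h2, h3⟩, h4⟩
      have h5 := w.2.1.2 h3
      rw [hl _ _ h2 h3, w.2.2 h5] at h4
      refine ⟨h2, h5, ?_⟩
      have h6 := (hG (l v.1.1 + -l w.1.1) 0 (l w.1.1)).2 h4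
      rwa [neg_add_cancel_right, zero_add] at h6
    · rintro ⟨h2, h3, h4⟩
      have h5 := w.2.1.1 h3
      refine ⟨⟨h2, h5⟩, ?_⟩
      rw [hl _ _ h2 h5, w.2.2 h3, ← hG _ _ (l w.1.1), neg_add_cancel_right, zero_add]
      exact h4
  let G' : SimpleGraph V :=
    { Adj := fun v w => f (v.1.1 * w.1.2) = true
      symm := ⟨by
        intro v w h
        rw [hf] at h ⊢
        exact ⟨h.2.1, h.1, h.2.2.symm⟩⟩
      loopless := ⟨by
        intro v h
        rw [hf] at h
        exact h.2.2.ne rfl⟩ }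
  refine ⟨V, inferInstance, G', ⟨fun v => v.1.1, fun v => v.1.2, f, ?_, ?_, fun v w => Iff.rfl⟩,
    ⟨⟨⟨fun x => ⟨(a x, a (-x)), ⟨fun _ => ha1 _, fun _ => ha1 _⟩, fun _ => ?_⟩, ?_⟩, ?_⟩⟩, ?_⟩
  · intro z
    by_cases hz : ok z
    · exact ⟨⟨(z, a (- l z)), ⟨fun _ => ha1 _, fun _ => hz⟩, fun _ => ha2 _⟩, rfl⟩
    · exact ⟨⟨(z, z), Iff.rfl, fun h => absurd h hz⟩, rfl⟩
  · intro z
    by_cases hz : ok z
    · refine ⟨⟨(a (- l z), z), ⟨fun _ => hz, fun _ => ha1 _⟩, fun _ => ?_⟩, rfl⟩
      change l z = - l (a (- l z))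
      rw [ha2, neg_neg]
    · exact ⟨⟨(z, z), Iff.rfl, fun h => absurd h hz⟩, rfl⟩
  · change l (a (-x)) = - l (a x)
    rw [ha2, ha2]
  · intro x y hxy
    have h2 : a x = a y := congrArg (fun v : V => v.1.1) hxy
    rw [← ha2 x, ← ha2 y, h2]
  · intro x y
    change f _ = true ↔ _
    refine (hf _ _).trans ?_
    change ok (a x) ∧ ok (a y) ∧ G.Adj (l (a x)) (l (a y)) ↔ _
    rw [ha2, ha2]
    exact ⟨fun h => h.2.2, fun h => ⟨ha1 _, ha1 _, h⟩⟩
  · let P : Matrix V (Fin n → ZMod p) ℝ :=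
      Matrix.of fun v x => if ok v.1.1 ∧ l v.1.1 = x then 1 else 0
    have hF : (Matrix.of (fun v w : V => if G'.Adj v w then (1 : ℝ) else 0)) =
        P * (Matrix.of (fun x y => if G.Adj x y then (1 : ℝ) else 0)) * P.transpose := by
      ext v w
      rw [Matrix.mul_apply]
      simp only [Matrix.mul_apply, Matrix.of_apply, Matrix.transpose_apply, P]
      have hadj : G'.Adj v w ↔ ok v.1.1 ∧ ok w.1.1 ∧ G.Adj (l v.1.1) (l w.1.1) := hf v w
      by_cases hz : ok v.1.1
      · by_cases hw : ok w.1.1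
        · rw [sum_eq_single (l w.1.1)]
          · rw [sum_eq_single (l v.1.1)]
            · simp [hz, hw, hadj]
            · intro x _ hx
              rw [if_neg (fun h => hx h.2.symm), zero_mul]
            · simp
          · intro y _ hy
            rw [if_neg (fun h : ok w.1.1 ∧ l w.1.1 = y => hy h.2.symm), mul_zero]
          · simp
        · simp [hw, hadj]
      · simp [hz, hadj]
    have h5 : grk G' = (Matrix.of (fun v w : V => if G'.Adj v w then (1 : ℝ) else 0)).rank := by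
      unfold grk
      congr!
    rw [h5, hF]
    exact rank_ABC_le _ _ _

end Pool.Agent.N609.Mon
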