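import Pool.Agent.N609.Mon.Graph
import Pool.Agent.N609.Mon.Band

/-!
# Unbounded tame monoids: all graphs
-/

set_option autoImplicit false
set_option linter.unusedSectionVars false
set_option linter.unusedVariables false

namespace Pool.Agent.N609.Mon

open Finset

section

variable {V : Type} {G : V → V → Bool}

/-- exchange of `l` and `r` -/
def BX.sg : BX V V G → BX V V G
  | BX.one => BX.one
  | BX.l x => BX.r x
  | BX.r x => BX.l x
  | BX.e => BX.e
  | BX.z => BX.z

theorem BX.sg_sg (s : BX V V G) : BX.sg (BX.sg s) = s := by
  rcases s with _ | x | y | _ | _ <;> rfl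

open Classical in
/-- **Every graph is an induced subgraph of a product graph over one tame monoid.** -/
theorem graph_band [Fintype V] (G : SimpleGraph V) :
    ∃ (S : Type) (_ : Fintype S) (_ : Monoid S) (W : Type) (_ : Fintype W) (G' : SimpleGraph W),
      Tame S ∧ IsProductGraph (fun _ : Unit => S) G' ∧ Nonempty (G ↪g G') ∧
      grk G' ≤ grk G + 2 := by
  by_cases h : ∃ x y, G.Adj x y
  · let g : V → V → Bool := fun x y => decide (G.Adj x y)
    have hsymm : ∀ x y, g x y = g y x := by
      intro x y
      simp only [g, decide_eq_decide]
      exact ⟨fun h => h.symm, fun h => h.symm⟩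
    have hcl : ∃ x y, g x y = true := by
      obtain ⟨x, y, hxy⟩ := h
      exact ⟨x, y, by simpa [g] using hxy⟩
    let G' : SimpleGraph (BX V V g) :=
      { Adj := fun s t => s * BX.sg t = BX.e
        symm := ⟨by
          intro s t hst
          change BX.mul s (BX.sg t) = BX.e at hst
          change BX.mul t (BX.sg s) = BX.e
          rcases s with _ | x | y | _ | _ <;> rcases t with _ | x' | y' | _ | _ <;>
            simp only [BX.sg, BX.mul] at hst ⊢ <;> first | (cases hst; done) | trivial | skip
          rw [hsymm x' x]
          exact hst⟩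
        loopless := ⟨by
          intro s hs
          change BX.mul s (BX.sg s) = BX.e at hs
          rcases s with _ | x | y | _ | _ <;> simp [BX.sg, BX.mul, g] at hs⟩ }
    have hsur : Function.Surjective (fun (s : BX V V g) (_ : Unit) => s) := by
      intro z
      exact ⟨z (), rfl⟩
    have hsur2 : Function.Surjective (fun (s : BX V V g) (_ : Unit) => BX.sg s) := by
      intro z
      exact ⟨BX.sg (z ()), funext fun _ => BX.sg_sg _⟩
    refine ⟨BX V V g, inferInstance, inferInstance, BX V V g, inferInstance, G',
      tame_of_idem _ (BX.closure_BX hcl),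
      ⟨fun s _ => s, fun s _ => BX.sg s, fun z => decide (z () = BX.e), hsur, hsur2,
        fun s t => ?_⟩, ⟨⟨⟨BX.l, ?_⟩, ?_⟩⟩, ?_⟩
    · simp only [decide_eq_true_iff]
      exact Iff.rfl
    · intro x y hxy
      injection hxy
    · intro x y
      change BX.l x * BX.sg (BX.l y) = BX.e ↔ _
      change (BX.l x * BX.r y : BX V V g) = BX.e ↔ _
      rw [BX.l_mul_r]
      by_cases hg : G.Adj x y
      · simp [g, hg]
      · simp [g, hg]
    · have h1 := BX.rank_BX (X := V) (Y := V) (G := g)
      have h2 : grk G' ≤ (Matrix.of (fun s t : BX V V g =>
          if decide (s * t = BX.e) = true then (1 : ℝ) else 0)).rank := by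
        unfold grk
        have e : (Matrix.of (fun s t : BX V V g => if G'.Adj s t then (1 : ℝ) else 0)) =
            (Matrix.of (fun s t : BX V V g =>
              if decide (s * t = BX.e) = true then (1 : ℝ) else 0)).submatrix id BX.sg := by
          ext s t
          simp only [Matrix.of_apply, Matrix.submatrix_apply, id, decide_eq_true_iff]
          congr!
        have e' : (Matrix.of fun v w => if G'.Adj v w then (1 : ℝ) else 0).rank =
            (Matrix.of (fun s t : BX V V g => if G'.Adj s t then (1 : ℝ) else 0)).rank := by
          congr!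
        rw [e', e]
        exact Matrix.rank_submatrix_le _ _ _
      have h3 : (Matrix.of (fun x y => if g x y then (1 : ℝ) else 0)).rank = grk G := by
        unfold grk
        congr 1
        ext x y
        simp only [Matrix.of_apply, g, decide_eq_true_iff]
      rw [h3] at h1
      exact h2.trans h1
  · push Not at h
    refine ⟨PUnit, inferInstance, inferInstance, Option V, inferInstance, ⊥,
      tame_of_idem _ (Subsingleton.elim _ _),
      ⟨fun _ _ => PUnit.unit, fun _ _ => PUnit.unit, fun _ => false, fun z => ⟨none, ?_⟩,
        fun z => ⟨none, ?_⟩, fun v w => ?_⟩, ⟨⟨⟨some, Option.some_injective V⟩, ?_⟩⟩, ?_⟩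
    · exact Subsingleton.elim _ _
    · exact Subsingleton.elim _ _
    · simp
    · intro x y
      simp [h x y]
    · have e : grk (⊥ : SimpleGraph (Option V)) = 0 := by
        unfold grk
        have : (Matrix.of (fun v w : Option V =>
            if (⊥ : SimpleGraph (Option V)).Adj v w then (1 : ℝ) else 0)) = 0 := by
          ext v w
          simp
        rw [← Matrix.rank_zero (R := ℝ) (m := Option V) (n := Option V), ← this]
        congr!
      rw [e]
      exact Nat.zero_le _

end

end Pool.Agent.N609.Mon
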