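import Pool.Agent.N609.Mon.Count

/-!
# Protocols for functions of the product in a product of tame monoids
-/

set_option autoImplicit false
set_option linter.unusedSectionVars false
set_option linter.unusedVariables false

namespace Pool.Agent.N609.Mon

open Finset Pool.Agent.TH744.LR

section

variable {ι : Type} [Fintype ι] [DecidableEq ι] {V : ι → Type} [∀ i, Fintype (V i)]

open Classical in
/-- the part of a set of variables at one place -/
noncomputable def pre (i : ι) (U : Finset (Σ i, V i)) : Finset (V i) :=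
  univ.filter (fun v => (⟨i, v⟩ : Σ i, V i) ∈ U)

theorem mem_pre {i : ι} {U : Finset (Σ i, V i)} {v : V i} :
    v ∈ pre i U ↔ (⟨i, v⟩ : Σ i, V i) ∈ U := by
  simp [pre]

theorem sigma_pre (U : Finset (Σ i, V i)) : univ.sigma (fun i => pre i U) = U := by
  ext ⟨i, v⟩
  simp [mem_pre]

theorem pre_sigma (i : ι) (s : ∀ i, Finset (V i)) : pre i (univ.sigma s) = s i := by
  ext v
  simp [mem_pre]

open Classical in
/-- sums over the subsets of a set of variables -/
theorem sum_pre {M : Type} [AddCommMonoid M] (T : Finset (Σ i, V i))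
    (h : (∀ i, Finset (V i)) → M) :
    ∑ U ∈ T.powerset, h (fun i => pre i U) =
      ∑ s ∈ Fintype.piFinset (fun i => (pre i T).powerset), h s := by
  refine sum_nbij' (fun U i => pre i U) (fun s => univ.sigma s) ?_ ?_ ?_ ?_ ?_
  · intro U hU
    rw [mem_powerset] at hU
    rw [Fintype.mem_piFinset]
    intro i
    rw [mem_powerset]
    intro v hv
    rw [mem_pre] at hv ⊢
    exact hU hv
  · intro s hs
    rw [Fintype.mem_piFinset] at hs
    rw [mem_powerset]
    rintro ⟨i, v⟩ hv
    rw [mem_sigma] at hv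
    have := hs i
    rw [mem_powerset] at this
    exact mem_pre.1 (this hv.2)
  · intro U _
    exact sigma_pre U
  · intro s _
    funext i
    exact pre_sigma i s
  · intro U _
    rfl

end

section

variable {ι : Type} [Fintype ι] [DecidableEq ι] {S : ι → Type} [∀ i, Fintype (S i)]
  [∀ i, Monoid (S i)] (D : ∀ i, Dat (S i)) (f : (∀ i, S i) → Bool) {k : ℕ}
  (cd : ∀ i, S i → Finset (Fin k))

/-- the complex valued function -/
noncomputable def cf (z : ∀ i, S i) : ℂ := if f z then 1 else 0

/-- the outer function -/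
noncomputable def gg (U : Finset (Σ i, (S i ⊕ Fin k))) : Bool :=
  f (fun i => dl (D i) (cd i) (pre i U))

/-- its coefficients -/
noncomputable def cS (U : Finset (Σ i, (S i ⊕ Fin k))) : ℝ :=
  (ev (cf f) (fun i => CC (D i) (cd i) (pre i U))).re

open Classical in
theorem rep_cS : Rep (gg D f cd) (cS D f cd) := by
  intro T
  have h1 : ∑ U ∈ T.powerset, ev (cf f) (fun i => CC (D i) (cd i) (pre i U)) =
      cf f (fun i => dl (D i) (cd i) (pre i T)) := by
    rw [sum_pre T (fun s => ev (cf f) (fun i => CC (D i) (cd i) (s i))),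
      ← MultilinearMap.map_sum_finset]
    exact (congrArg (ev (cf f)) (funext fun i => sum_CC (D i) (cd i) _)).trans (ev_of _ _)
  have h2 := congrArg Complex.re h1
  rw [Complex.re_sum] at h2
  unfold cS
  rw [h2]
  unfold bv cf gg
  split_ifs <;> simp

theorem nonzero_of_cS {U : Finset (Σ i, (S i ⊕ Fin k))} (h : cS D f cd U ≠ 0) :
    ev (cf f) (fun i => CC (D i) (cd i) (pre i U)) ≠ 0 := by
  intro h0
  apply h
  unfold cS
  rw [h0, Complex.zero_re]

open Classical in
/-- the places with two-way variables -/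
noncomputable def I2 (S : ι → Type) [∀ i, Fintype (S i)] (k : ℕ) :
    Finset (Σ i, (S i ⊕ Fin k)) :=
  univ.filter (fun v => ∃ b : Fin k, v.2 = Sum.inr b)

open Classical in
theorem card_I2 {r : ℕ}
    (hr : ∀ W : Finset (∀ i, (D i).J), (∀ σ ∈ W, InW D (cf f) σ) → W.card ≤ r)
    {U : Finset (Σ i, (S i ⊕ Fin k))} (hU : cS D f cd U ≠ 0) :
    (U ∩ I2 S k).card ≤ Nat.log 2 r * k := by
  obtain ⟨τ, hτ, h1, h2⟩ := expand_mem D (cf f) cd _ (nonzero_of_cS D f cd hU)
  have h3 := hτ.pow_le D (cf f) hr
  have h4 : (univ.filter (fun i => τ i = none)).card ≤ Nat.log 2 r :=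
    Nat.le_log_of_pow_le (by norm_num) h3
  refine le_trans ?_ (Nat.mul_le_mul_right k h4)
  have h5 : U ∩ I2 S k ⊆ (univ.filter (fun i => τ i = none)).sigma
      (fun i => (univ : Finset (Fin k)).image (Sum.inr : Fin k → S i ⊕ Fin k)) := by
    rintro ⟨i, v⟩ hv
    rw [mem_inter, I2, mem_filter] at hv
    obtain ⟨hv1, _, b, hb⟩ := hv
    rw [mem_sigma]
    refine ⟨mem_filter.2 ⟨mem_univ _, ?_⟩, ?_⟩
    · rcases hτi : τ i with _ | j
      · rfl
      · exfalso
        have h6 := h1 i j hτi
        have h7 : v ∈ pre i U := mem_pre.2 hv1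
        rw [h6] at h7
        change v = Sum.inr b at hb
        rw [hb] at h7
        exact inr_mem_Zs (D i) h7
    · rw [mem_image]
      exact ⟨b, mem_univ _, hb.symm⟩
  refine (card_le_card h5).trans ?_
  rw [card_sigma]
  refine (sum_le_card_nsmul _ _ k fun i _ => ?_).trans (by rw [smul_eq_mul])
  refine card_image_le.trans ?_
  simp

open Classical in
/-- the number of monomials -/
theorem card_supp {r m : ℕ} (hm : 1 ≤ m)
    (hr : ∀ W : Finset (∀ i, (D i).J), (∀ σ ∈ W, InW D (cf f) σ) → W.card ≤ r)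
    (hMM : ∀ i, (MM (D i) k).card ≤ m) :
    (univ.filter (fun U => cS D f cd U ≠ 0)).card ≤ r * r * m ^ Nat.log 2 r := by
  have h1 : univ.filter (fun U => cS D f cd U ≠ 0) ⊆
      (univ.filter (fun τ : ∀ i, Option (D i).J => Good D (cf f) τ)).biUnion (fun τ =>
        (Fintype.piFinset (fun i => match τ i with
          | some j => {Zs (D i) k j}
          | none => MM (D i) k)).image (fun s => univ.sigma s)) := by
    intro U hU
    obtain ⟨τ, hτ, h1, h2⟩ := expand_mem D (cf f) cd _ (nonzero_of_cS D f cd (mem_filter.1 hU).2)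
    rw [mem_biUnion]
    refine ⟨τ, mem_filter.2 ⟨mem_univ _, hτ⟩, ?_⟩
    rw [mem_image]
    refine ⟨fun i => pre i U, ?_, sigma_pre U⟩
    rw [Fintype.mem_piFinset]
    intro i
    rcases hτi : τ i with _ | j
    · exact h2 i hτi
    · exact mem_singleton.2 (h1 i j hτi)
  refine (card_le_card h1).trans (card_biUnion_le.trans ?_)
  refine (sum_le_card_nsmul _ _ (m ^ Nat.log 2 r) fun τ hτ => ?_).trans ?_
  · refine card_image_le.trans ?_
    rw [Fintype.card_piFinset]
    have h3 := (mem_filter.1 hτ).2.pow_le D (cf f) hr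
    have h4 : (univ.filter (fun i => τ i = none)).card ≤ Nat.log 2 r :=
      Nat.le_log_of_pow_le (by norm_num) h3
    calc ∏ i, (match τ i with
          | some j => ({Zs (D i) k j} : Finset (Finset (S i ⊕ Fin k)))
          | none => MM (D i) k).card ≤ ∏ i, (if τ i = none then m else 1) := by
          refine prod_le_prod' fun i _ => ?_
          rcases hτi : τ i with _ | j
          · simp only [if_true]
            exact hMM i
          · simp
      _ = m ^ (univ.filter (fun i => τ i = none)).card := by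
          rw [prod_ite]
          simp
      _ ≤ m ^ Nat.log 2 r := Nat.pow_le_pow_right hm h4
  · rw [smul_eq_mul]
    exact Nat.mul_le_mul_right _ (card_good D (cf f) hr)

open Classical in
/-- **The protocol.** -/
theorem main (hcd : ∀ i, Function.Injective (cd i)) (hS : ∀ i, Fintype.card (S i) ≤ 2 ^ k)
    {r : ℕ} (hr : ∀ W : Finset (∀ i, (D i).J), (∀ σ ∈ W, InW D (cf f) σ) → W.card ≤ r) :
    Prot (fun x y : ∀ i, S i => f (x * y))
      (5472 * ((2 * k + 3) * (Nat.log 2 r + 1)) ^ 11) := by
  set l := Nat.log 2 r + 1 with hl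
  set d := (2 * k + 3) * l with hd
  have hl1 : 1 ≤ l := by omega
  have hd1 : 1 ≤ d := by
    rw [hd]
    exact Nat.mul_pos (by omega) hl1
  have hrl : r < 2 ^ l := Nat.lt_pow_succ_log_self (by norm_num) r
  let φ : (Σ i, (S i ⊕ Fin k)) → (∀ i, S i) → (∀ i, S i) → Bool := fun v x y =>
    ph (D v.1) (cd v.1) v.2 (x v.1) (y v.1)
  let q : (Σ i, (S i ⊕ Fin k)) → ℕ := fun _ => k + 2
  have hφ : ∀ v, Prot (φ v) (q v) := by
    rintro ⟨i, v⟩
    rcases v with s | b
    · have h1 := Prot.bind (Prot.alice (X := ∀ i, S i) (Y := ∀ i, S i)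
        (fun x => decide (¬ ze (D i) (x i) ⊆ ze (D i) s)))
        (F := fun w x y => w && decide (¬ ze (D i) (y i) ⊆ ze (D i) s)) (b := 1) (by
          intro w
          cases w
          · simp only [Bool.false_and]
            exact (Prot.const false).mono (Nat.zero_le _)
          · simp only [Bool.true_and]
            exact Prot.bob _)
      exact h1.mono (by change 1 + 1 ≤ k + 2; omega)
    · have h1 := (Prot.of_card (X := S i) (Y := S i) (ph (D i) (cd i) (Sum.inr b)) k
        (hS i)).lift (X' := ∀ i, S i) (Y' := ∀ i, S i) (fun x => x i) (fun y => y i)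
      exact h1.mono (by change k + 1 ≤ k + 2; omega)
  have hI : ∀ v, v ∉ I2 S k → ∃ (u : (∀ i, S i) → Bool) (w : (∀ i, S i) → Bool),
      ∀ x y, φ v x y = (u x && w y) := by
    rintro ⟨i, v⟩ hv
    rcases v with s | b
    · exact ⟨fun x => decide (¬ ze (D i) (x i) ⊆ ze (D i) s),
        fun y => decide (¬ ze (D i) (y i) ⊆ ze (D i) s), fun x y => rfl⟩
    · exfalso
      apply hv
      rw [I2, mem_filter]
      exact ⟨mem_univ _, b, rfl⟩
  have hMM : ∀ i, (MM (D i) k).card ≤ 2 ^ k * 2 ^ k := fun i =>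
    (card_MM (D i)).trans (Nat.mul_le_mul_right _ (hS i))
  have hcard : (univ.filter (fun U => cS D f cd U ≠ 0)).card < 2 ^ d := by
    refine lt_of_le_of_lt (card_supp D f cd (Nat.mul_pos (by positivity) (by positivity)) hr
      hMM) ?_
    calc r * r * (2 ^ k * 2 ^ k) ^ Nat.log 2 r
        < 2 ^ l * 2 ^ l * (2 ^ k * 2 ^ k) ^ Nat.log 2 r := by
          refine Nat.mul_lt_mul_of_pos_right ?_ (by positivity)
          exact Nat.mul_lt_mul'' hrl hrl
      _ = 2 ^ (l + l + (k + k) * Nat.log 2 r) := by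
          rw [← pow_add, ← pow_add, ← pow_mul, ← pow_add]
      _ ≤ 2 ^ d := by
          refine Nat.pow_le_pow_right (by norm_num) ?_
          have h1 : (k + k) * Nat.log 2 r ≤ (k + k) * l :=
            Nat.mul_le_mul_left _ (by omega)
          calc l + l + (k + k) * Nat.log 2 r ≤ l + l + (k + k) * l := by omega
            _ ≤ d := by rw [hd]; nlinarith
  have hI2c : ∀ U ∈ univ.filter (fun U => cS D f cd U ≠ 0), (U ∩ I2 S k).card ≤ l * k :=
    fun U hU => (card_I2 D f cd hr (mem_filter.1 hU).2).trans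
      (Nat.mul_le_mul_right k (by omega))
  have h1 := Pool.Agent.N609.AndRank.mainM hφ (I2 S k) hI (rep_cS D f cd)
    (M := univ.filter (fun U => cS D f cd U ≠ 0)) (by simp) hd1 hcard (Q := d ^ 2) (by
      intro U hU
      rw [sum_const, smul_eq_mul]
      calc (U ∩ I2 S k).card * (k + 2) ≤ l * k * (k + 2) := Nat.mul_le_mul_right _ (hI2c U hU)
        _ ≤ d ^ 2 := by
            rw [hd]
            have h2 : l ≤ l ^ 2 := by nlinarith
            have h3 : k * (k + 2) ≤ (2 * k + 3) ^ 2 := by nlinarith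
            calc l * k * (k + 2) = k * (k + 2) * l := by ring
              _ ≤ (2 * k + 3) ^ 2 * l ^ 2 := Nat.mul_le_mul h3 h2
              _ = ((2 * k + 3) * l) ^ 2 := by ring) (by
      intro U hU
      refine (hI2c U hU).trans ?_
      rw [hd]
      nlinarith)
  have h2 : comp (gg D f cd) φ = fun x y : ∀ i, S i => f (x * y) := by
    funext x y
    unfold comp gg
    congr 1
    funext i
    have h3 : pre i (univ.filter (fun v => φ v x y = true)) =
        univ.filter (fun v => ph (D i) (cd i) v (x i) (y i) = true) := by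
      ext v
      rw [mem_pre, mem_filter, mem_filter]
      simp only [mem_univ, true_and, φ]
    rw [h3]
    exact dl_ph (D i) (cd i) (hcd i) (x i) (y i)
  rw [h2] at h1
  refine h1.mono ?_
  have hd2 : 1 ≤ d ^ 2 := Nat.one_le_pow _ _ hd1
  have h4 : 16 * d ^ 4 + (d ^ 2 + 2) ≤ 19 * d ^ 4 := by nlinarith
  calc (16 * d ^ 4 + (d ^ 2 + 2)) * (288 * d ^ 7) ≤ 19 * d ^ 4 * (288 * d ^ 7) :=
        Nat.mul_le_mul_right _ h4
    _ = 5472 * d ^ 11 := by ring

end

/-- rank factorisation -/
theorem exists_factor {K m n : Type} [Field K] [Fintype m] [Fintype n] [DecidableEq m]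
    [DecidableEq n] (M : Matrix m n K) :
    ∃ (P : Matrix m (Fin M.rank) K) (Q : Matrix (Fin M.rank) n K), M = P * Q := by
  let f := Matrix.toLin' M
  have hr : Module.finrank K (LinearMap.range f) = M.rank := rfl
  let e : LinearMap.range f ≃ₗ[K] (Fin M.rank → K) :=
    LinearEquiv.ofFinrankEq _ _ (by rw [hr]; simp)
  let g1 : (n → K) →ₗ[K] (Fin M.rank → K) := e.toLinearMap ∘ₗ f.rangeRestrict
  let g2 : (Fin M.rank → K) →ₗ[K] (m → K) := (LinearMap.range f).subtype ∘ₗ e.symm.toLinearMap
  refine ⟨LinearMap.toMatrix' g2, LinearMap.toMatrix' g1, ?_⟩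
  rw [← LinearMap.toMatrix'_comp]
  have : g2 ∘ₗ g1 = f := by
    ext v i
    simp [g1, g2]
  rw [this]
  simp [f]

/-- the complex rank is at most the real rank -/
theorem rank_map_le {m n : Type} [Fintype m] [Fintype n] [DecidableEq m]
    [DecidableEq n] (M : Matrix m n ℝ) : (M.map Complex.ofReal).rank ≤ M.rank := by
  obtain ⟨P, Q, h⟩ := exists_factor M
  have h1 : M.map Complex.ofReal = P.map Complex.ofReal * Q.map Complex.ofReal := by
    conv_lhs => rw [h]
    exact Matrix.map_mul (f := Complex.ofRealHom)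
  rw [h1]
  refine (Matrix.rank_mul_le_left _ _).trans ?_
  refine (Matrix.rank_le_card_width _).trans ?_
  simp

/-- **Functions of the product in tame monoids.** -/
theorem tame_main {ι : Type} [Fintype ι] [DecidableEq ι] {S : ι → Type} [∀ i, Fintype (S i)]
    [∀ i, Monoid (S i)] (hT : ∀ i, Tame (S i)) (f : (∀ i, S i) → Bool) {k : ℕ}
    (hS : ∀ i, Fintype.card (S i) ≤ 2 ^ k) :
    Prot (fun x y : ∀ i, S i => f (x * y)) (5472 * ((2 * k + 3) * (Nat.log 2
      (Matrix.of (fun x y : ∀ i, S i => if f (x * y) then (1 : ℝ) else 0)).rank + 1)) ^ 11) := by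
  classical
  have hD : ∀ i, Nonempty (Dat (S i)) := fun i => exists_dat (S i) (hT i)
  let D : ∀ i, Dat (S i) := fun i => (hD i).some
  have hcd : ∀ i, ∃ c : S i → Finset (Fin k), Function.Injective c := by
    intro i
    have : Fintype.card (S i) ≤ Fintype.card (Finset (Fin k)) := by
      rw [Fintype.card_finset, Fintype.card_fin]
      exact hS i
    obtain ⟨e⟩ := Function.Embedding.nonempty_of_card_le this
    exact ⟨e, e.injective⟩
  choose cd hcd using hcd
  refine main D f cd hcd hS ?_
  intro W hW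
  have h1 := card_le_rank D (cf f) W hW
  refine h1.trans ?_
  have h2 := rank_map_le (Matrix.of (fun x y : ∀ i, S i => if f (x * y) then (1 : ℝ) else 0))
  refine le_trans (le_of_eq ?_) h2
  congr 1
  ext x y
  simp only [Matrix.of_apply, Matrix.map_apply, cf]
  split_ifs <;> simp

end Pool.Agent.N609.Mon
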